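import Pool.Agent.W2lead.DepthDefs

/-!
# Small monotone circuits for the pyramid problem
-/

namespace Pool.Agent.W2lead.Depth

open Finset

section

variable {I : Type}

/-- variables and constants -/
def Inputs (I : Type) : Set ((I → Bool) → Bool) :=
  {f | (∃ b, f = fun _ => b) ∨ ∃ i, f = fun x => x i}

lemma extend_list {α : Type} (L : List α) (m : ℕ) (f : α → (I → Bool) → Bool)
    (G0 : Set ((I → Bool) → Bool))
    (step : ∀ e ∈ L, ∀ s G, G0 ⊆ G → MonCircuit s G →
      ∃ G', G ⊆ G' ∧ MonCircuit (s + m) G' ∧ f e ∈ G') :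
    ∀ s G, G0 ⊆ G → MonCircuit s G →
      ∃ G', G ⊆ G' ∧ MonCircuit (s + m * L.length) G' ∧ ∀ e ∈ L, f e ∈ G' := by
  induction L with
  | nil =>
    intro s G _ hG
    exact ⟨G, subset_rfl, by simpa using hG, by simp⟩
  | cons a L ih =>
    intro s G h0 hG
    obtain ⟨G1, h1, h2, h3⟩ := step a List.mem_cons_self s G h0 hG
    obtain ⟨G2, h4, h5, h6⟩ := ih (fun e he => step e (List.mem_cons_of_mem _ he)) _ G1
      (h0.trans h1) h2
    refine ⟨G2, h1.trans h4, ?_, ?_⟩
    · have : s + m * (a :: L).length = s + m + m * L.length := by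
        rw [List.length_cons]; ring
      rw [this]
      exact h5
    · intro e he
      rcases List.mem_cons.mp he with rfl | he
      · exact h4 h3
      · exact h6 e he

/-- a disjunction of conjunctions of three functions -/
lemma or_list (L : List (((I → Bool) → Bool) × ((I → Bool) → Bool) × ((I → Bool) → Bool)))
    {s : ℕ} {G : Set ((I → Bool) → Bool)} (hI : Inputs I ⊆ G) (hG : MonCircuit s G)
    (hL : ∀ T ∈ L, T.1 ∈ G ∧ T.2.1 ∈ G ∧ T.2.2 ∈ G) :
    ∃ G', G ⊆ G' ∧ MonCircuit (s + 3 * L.length) G' ∧
      (fun x => L.any (fun T => T.1 x && (T.2.1 x && T.2.2 x))) ∈ G' := by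
  induction L with
  | nil =>
    refine ⟨G, subset_rfl, by simpa using hG, hI (Or.inl ⟨false, ?_⟩)⟩
    funext x
    simp
  | cons T L ih =>
    obtain ⟨G1, h1, h2, h3⟩ := ih (fun T' hT' => hL T' (List.mem_cons_of_mem _ hT'))
    obtain ⟨t1, t2, t3⟩ := hL T List.mem_cons_self
    have c1 := MonCircuit.and h2 (h1 t2) (h1 t3)
    have c2 := MonCircuit.and c1 (Set.mem_insert_of_mem _ (h1 t1)) (Set.mem_insert _ _)
    have c3 := MonCircuit.or c2 (Set.mem_insert _ _)
      (Set.mem_insert_of_mem _ (Set.mem_insert_of_mem _ h3))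
    have hs : s + 3 * (T :: L).length = s + 3 * L.length + 1 + 1 + 1 := by
      rw [List.length_cons]; ring
    have he : (fun x => (T :: L).any (fun T => T.1 x && (T.2.1 x && T.2.2 x))) =
        (fun x => (T.1 x && (T.2.1 x && T.2.2 x)) ||
          L.any (fun T => T.1 x && (T.2.1 x && T.2.2 x))) := by
      funext x
      rw [List.any_cons]
    rw [hs, he]
    exact ⟨_, h1.trans ((Set.subset_insert _ _).trans ((Set.subset_insert _ _).trans
        (Set.subset_insert _ _))), c3, Set.mem_insert _ _⟩

end

section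

variable {r h q : ℕ}

open Classical in
/-- the function that tells whether a value can be derived in a block -/
noncomputable def dfun (i : Fin r) (k j : ℕ) (c : Fin q) : (Fin r × Var h q → Bool) → Bool :=
  fun x => decide (Derives (fun v => x (i, v)) k j c)

lemma level (i : Fin r) (k : ℕ) (hkh : k ≤ h) : ∀ s (G : Set ((Fin r × Var h q → Bool) → Bool)),
    Inputs _ ⊆ G → MonCircuit s G →
    ∃ G', G ⊆ G' ∧ MonCircuit (s + k * (3 * (q * q) * (h * q))) G' ∧
      ∀ j c, dfun i k j c ∈ G' := by
  classical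
  induction k with
  | zero =>
    intro s G hI hG
    refine ⟨G, subset_rfl, by simpa using hG, fun j c => hI ?_⟩
    by_cases hj : j < h + 1
    · refine Or.inr ⟨(i, .leaf ⟨j, hj⟩ c), ?_⟩
      funext x
      unfold dfun
      rw [Bool.eq_iff_iff, decide_eq_true_eq]
      exact ⟨fun ⟨_, h1⟩ => h1, fun h1 => ⟨hj, h1⟩⟩
    · refine Or.inl ⟨false, ?_⟩
      funext x
      unfold dfun
      rw [decide_eq_false_iff_not]
      rintro ⟨hj', -⟩
      exact hj hj'
  | succ k ih =>
    intro s G hI hG
    have hk : k < h := hkh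
    obtain ⟨G1, h1, h2, h3⟩ := ih hk.le s G hI hG
    obtain ⟨G2, h4, h5, h6⟩ := extend_list ((univ : Finset (Fin h × Fin q)).toList)
        (3 * (q * q)) (fun e => dfun i (k + 1) e.1.val e.2) G1 (by
          rintro ⟨j, c⟩ - s' G' hG1 hG'
          obtain ⟨G3, e1, e2, e3⟩ := or_list
            ((univ : Finset (Fin q × Fin q)).toList.map (fun ab =>
              ((fun x => x (i, .rule ⟨k, hk⟩ j ab.1 ab.2 c)),
                dfun i k j.val ab.1, dfun i k (j.val + 1) ab.2)))
            (hI.trans (h1.trans hG1)) hG' (by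
              intro T hT
              rw [List.mem_map] at hT
              obtain ⟨ab, -, rfl⟩ := hT
              exact ⟨hG1 (h1 (hI (Or.inr ⟨_, rfl⟩))), hG1 (h3 _ _), hG1 (h3 _ _)⟩)
          refine ⟨G3, e1, ?_, ?_⟩
          · rw [List.length_map, Finset.length_toList, Finset.card_univ, Fintype.card_prod,
              Fintype.card_fin] at e2
            exact e2
          · convert e3 using 1
            funext x
            rw [Bool.eq_iff_iff, List.any_eq_true]
            unfold dfun
            rw [decide_eq_true_eq]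
            constructor
            · rintro ⟨hk', hj', a, b, g1, g2, g3⟩
              refine ⟨_, List.mem_map.mpr ⟨(a, b), by simp, rfl⟩, ?_⟩
              simp only [Bool.and_eq_true, decide_eq_true_eq]
              exact ⟨g1, g2, g3⟩
            · rintro ⟨T, hT, hx⟩
              rw [List.mem_map] at hT
              obtain ⟨ab, -, rfl⟩ := hT
              simp only [Bool.and_eq_true, decide_eq_true_eq] at hx
              exact ⟨hk, j.isLt, ab.1, ab.2, hx.1, hx.2.1, hx.2.2⟩) _ G1 subset_rfl h2
    refine ⟨G2, h1.trans h4, ?_, fun j c => ?_⟩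
    · rw [Finset.length_toList, Finset.card_univ, Fintype.card_prod, Fintype.card_fin,
        Fintype.card_fin] at h5
      have : s + (k + 1) * (3 * (q * q) * (h * q)) =
          s + k * (3 * (q * q) * (h * q)) + 3 * (q * q) * (h * q) := by ring
      rw [this]
      exact h5
    · by_cases hj : j < h
      · exact h6 (⟨j, hj⟩, c) (by simp)
      · refine h4 (h1 (hI (Or.inl ⟨false, ?_⟩)))
        funext x
        unfold dfun
        rw [decide_eq_false_iff_not]
        rintro ⟨-, hj', -⟩
        exact hj hj'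

open Classical in
/-- one block -/
lemma top_fun (i : Fin r) : ∀ s (G : Set ((Fin r × Var h q → Bool) → Bool)),
    Inputs _ ⊆ G → MonCircuit s G →
    ∃ G', G ⊆ G' ∧ MonCircuit (s + (h * (3 * (q * q) * (h * q)) + 3 * q)) G' ∧
      (fun x => decide (Top (fun v => x (i, v)))) ∈ G' := by
  intro s G hI hG
  obtain ⟨G1, h1, h2, h3⟩ := level i h le_rfl s G hI hG
  obtain ⟨G2, h4, h5, h6⟩ := or_list
    ((univ : Finset (Fin q)).toList.map (fun c =>
      ((fun x : Fin r × Var h q → Bool => x (i, .goal c)), dfun i h 0 c, dfun i h 0 c)))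
    (hI.trans h1) h2 (by
      intro T hT
      rw [List.mem_map] at hT
      obtain ⟨c, -, rfl⟩ := hT
      exact ⟨h1 (hI (Or.inr ⟨_, rfl⟩)), h3 _ _, h3 _ _⟩)
  refine ⟨G2, h1.trans h4, ?_, ?_⟩
  · rw [List.length_map, Finset.length_toList, Finset.card_univ, Fintype.card_fin, add_assoc] at h5
    exact h5
  · convert h6 using 1
    funext x
    rw [Bool.eq_iff_iff, List.any_eq_true]
    unfold dfun
    rw [decide_eq_true_eq]
    constructor
    · rintro ⟨c, g1, g2⟩
      refine ⟨_, List.mem_map.mpr ⟨c, by simp, rfl⟩, ?_⟩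
      simp only [Bool.and_eq_true, decide_eq_true_eq]
      exact ⟨g1, g2, g2⟩
    · rintro ⟨T, hT, hx⟩
      rw [List.mem_map] at hT
      obtain ⟨c, -, rfl⟩ := hT
      simp only [Bool.and_eq_true, decide_eq_true_eq] at hx
      exact ⟨c, hx.1, hx.2.1⟩

lemma and_list {I : Type} (L : List ((I → Bool) → Bool))
    {s : ℕ} {G : Set ((I → Bool) → Bool)} (hI : Inputs I ⊆ G) (hG : MonCircuit s G)
    (hL : ∀ f ∈ L, f ∈ G) :
    ∃ G', G ⊆ G' ∧ MonCircuit (s + L.length) G' ∧ (fun x => L.all (fun f => f x)) ∈ G' := by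
  induction L with
  | nil =>
    refine ⟨G, subset_rfl, by simpa using hG, hI (Or.inl ⟨true, ?_⟩)⟩
    funext x
    simp
  | cons f L ih =>
    obtain ⟨G1, h1, h2, h3⟩ := ih (fun f' hf' => hL f' (List.mem_cons_of_mem _ hf'))
    have c1 := MonCircuit.and h2 (h1 (hL f List.mem_cons_self)) h3
    have hs : s + (f :: L).length = s + L.length + 1 := by
      rw [List.length_cons]; ring
    have he : (fun x => (f :: L).all (fun f => f x)) = (fun x => f x && L.all (fun f => f x)) := by
      funext x
      rw [List.all_cons]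
    rw [hs, he]
    exact ⟨_, h1.trans (Set.subset_insert _ _), c1, Set.mem_insert _ _⟩

lemma card_var (h q : ℕ) : Nat.card (Var h q) = (h + 1) * q + h * h * (q * q * q) + q := by
  have e : Var h q ≃ ((Fin (h + 1) × Fin q) ⊕ ((Fin h × Fin h) × (Fin q × Fin q × Fin q))) ⊕
      Fin q :=
    { toFun := fun v => match v with
        | .leaf j c => .inl (.inl (j, c))
        | .rule k j a b c => .inl (.inr ((k, j), (a, b, c)))
        | .goal c => .inr c
      invFun := fun v => match v with
        | .inl (.inl (j, c)) => .leaf j c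
        | .inl (.inr ((k, j), (a, b, c))) => .rule k j a b c
        | .inr c => .goal c
      left_inv := by rintro (_ | _ | _) <;> rfl
      right_inv := by rintro ((_ | _) | _) <;> rfl }
  rw [Nat.card_congr e, Nat.card_eq_fintype_card]
  simp only [Fintype.card_sum, Fintype.card_prod, Fintype.card_fin]
  ring

open Classical in
/-- a monotone circuit of linear size for the pyramid problem -/
theorem upper (r h : ℕ) : ∃ s ≤ 4 * Nat.card (Bits r h), ∃ G, MonCircuit s G ∧
    (fun x : Bits r h → Bool => decide (AllTops r h x)) ∈ G := by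
  obtain ⟨G1, h1, h2, h3⟩ := extend_list ((univ : Finset (Fin r)).toList)
    (h * (3 * (vals h * vals h) * (h * vals h)) + 3 * vals h)
    (fun i (x : Bits r h → Bool) => decide (Top (fun v => x (i, v)))) (Inputs _)
    (fun i _ s G hI hG => top_fun i s G hI hG) 0 (Inputs _) subset_rfl MonCircuit.inputs
  obtain ⟨G2, h4, h5, h6⟩ := and_list
    ((univ : Finset (Fin r)).toList.map
      (fun i => (fun x : Bits r h → Bool => decide (Top (fun v => x (i, v)))))) h1 h2 (by
        intro f hf
        rw [List.mem_map] at hf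
        obtain ⟨i, hi, rfl⟩ := hf
        exact h3 i hi)
  refine ⟨_, ?_, G2, h5, ?_⟩
  · rw [List.length_map, Finset.length_toList, Finset.card_univ, Fintype.card_fin,
      Nat.card_prod, Nat.card_fin, card_var]
    have hv : 1 ≤ vals h := by
      have h9 : 0 < (h + 1) ^ 2 := by positivity
      unfold vals
      omega
    obtain ⟨v, hv'⟩ : ∃ v, v = vals h := ⟨_, rfl⟩
    rw [← hv'] at hv ⊢
    have h8 : (h * (3 * (v * v) * (h * v)) + 3 * v) + 1 ≤
        4 * ((h + 1) * v + h * h * (v * v * v) + v) := by
      have e1 : h * (3 * (v * v) * (h * v)) = 3 * (h * h * (v * v * v)) := by ring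
      have e2 : (h + 1) * v = h * v + v := by ring
      rw [e1, e2]
      omega
    calc 0 + (h * (3 * (v * v) * (h * v)) + 3 * v) * r + r
        = r * ((h * (3 * (v * v) * (h * v)) + 3 * v) + 1) := by ring
      _ ≤ r * (4 * ((h + 1) * v + h * h * (v * v * v) + v)) := Nat.mul_le_mul_left r h8
      _ = 4 * (r * ((h + 1) * v + h * h * (v * v * v) + v)) := by ring
  · convert h6 using 1
    funext x
    rw [Bool.eq_iff_iff, List.all_eq_true, decide_eq_true_eq]
    constructor
    · intro hx f hf
      rw [List.mem_map] at hf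
      obtain ⟨i, -, rfl⟩ := hf
      exact decide_eq_true (hx i)
    · intro hx i
      exact of_decide_eq_true (hx _ (List.mem_map.mpr ⟨i, by simp, rfl⟩))

end

end Pool.Agent.W2lead.Depth
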