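import Mathlib

/-!
# Sum over graphs of products of even-triple fractions (MP_dd5ef2_co)

The sum `S n` is `2 ^ o(n²)`.  For a graph `G` let `h i j` be the proportion of the vertices `k`
which are adjacent to both or to none of `i`, `j`.  The factor of the pair `i j` is `h i j` if `i`,
`j` are not adjacent and `1 - h i j` otherwise.  If `h` were fixed, the sum over `G` of the products
would be `∏ (h + (1 - h)) = 1`.  Now `h` is approximated, up to a small error in the mean, by the
proportion in a random sample of `m` vertices, and this is determined by `m n` bits.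
-/

set_option autoImplicit false

open Finset

namespace Pool.Agent.W2lead.EvenTriples

/-- Sampling: mean absolute deviation. -/
lemma sum_sq {n m : ℕ} (f : Fin n → ℝ) (hf : ∑ k, f k = 0) (hb : ∀ k, |f k| ≤ 1) :
    ∑ K : Fin m → Fin n, (∑ l, f (K l)) ^ 2 ≤ m * (n : ℝ) ^ m := by
  have h1 : ∀ K : Fin m → Fin n, (∑ l, f (K l)) ^ 2 = ∑ l, ∑ l', f (K l) * f (K l') := by
    intro K
    rw [sq, Finset.sum_mul_sum]
  simp_rw [h1]
  rw [Finset.sum_comm]
  have h2 : ∀ l : Fin m, ∑ K : Fin m → Fin n, ∑ l', f (K l) * f (K l') ≤ (n : ℝ) ^ m := by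
    intro l
    rw [Finset.sum_comm]
    rw [Finset.sum_eq_single l]
    · calc ∑ K : Fin m → Fin n, f (K l) * f (K l) ≤ ∑ K : Fin m → Fin n, (1 : ℝ) := by
            apply Finset.sum_le_sum
            intro K _
            have := hb (K l)
            rw [← abs_mul_abs_self]
            nlinarith [abs_nonneg (f (K l))]
        _ = (n : ℝ) ^ m := by simp
    · intro l' _ hl
      have h3 : ∀ K : Fin m → Fin n, f (K l) * f (K l') =
          ∏ a, (if a = l then f (K a) else if a = l' then f (K a) else 1) := by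
        intro K
        rw [Finset.prod_eq_mul l l' (Ne.symm hl)]
        · simp [hl]
        · intro c _ hc
          simp [hc.1, hc.2]
        · simp
        · simp
      simp_rw [h3]
      rw [← Fintype.piFinset_univ]
      have h4 := Finset.prod_univ_sum (fun _ : Fin m => (Finset.univ : Finset (Fin n)))
        (fun a x => if a = l then f x else if a = l' then f x else (1 : ℝ))
      rw [← h4]
      apply Finset.prod_eq_zero (Finset.mem_univ l)
      simp [hf]
    · simp
  calc ∑ l : Fin m, ∑ K : Fin m → Fin n, ∑ l', f (K l) * f (K l')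
      ≤ ∑ l : Fin m, (n : ℝ) ^ m := Finset.sum_le_sum fun l _ => h2 l
    _ = m * (n : ℝ) ^ m := by simp

/-- The proportion of agreements of two rows. -/
noncomputable def agree {a : ℕ} (u v : Fin a → Bool) : ℝ :=
  (∑ k, (if u k = v k then (1 : ℝ) else 0)) / a

lemma agree_nonneg {a : ℕ} (u v : Fin a → Bool) : 0 ≤ agree u v := by
  unfold agree
  apply div_nonneg _ (by positivity)
  apply Finset.sum_nonneg
  intro k _
  split_ifs <;> norm_num

lemma agree_le {a : ℕ} (u v : Fin a → Bool) : agree u v ≤ 1 := by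
  unfold agree
  rcases Nat.eq_zero_or_pos a with h | h
  · subst h
    simp
  · rw [div_le_one (by exact_mod_cast h)]
    calc ∑ k, (if u k = v k then (1 : ℝ) else 0) ≤ ∑ k : Fin a, (1 : ℝ) := by
          apply Finset.sum_le_sum
          intro k _
          split_ifs <;> norm_num
      _ = a := by simp

/-- Mean absolute deviation of the sampled proportion. -/
lemma sample {n m : ℕ} (hn : 0 < n) {η : ℝ} (hη : 0 < η) (hm : 1 ≤ η ^ 2 * m)
    (u v : Fin n → Bool) :
    ∑ K : Fin m → Fin n, |agree (fun l => u (K l)) (fun l => v (K l)) - agree u v| ≤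
      η * (n : ℝ) ^ m := by
  have hm0 : (0 : ℝ) < m := by
    by_contra h
    have : (m : ℝ) = 0 := le_antisymm (not_lt.mp h) (by positivity)
    rw [this] at hm
    norm_num at hm
  set f : Fin n → ℝ := fun k => (if u k = v k then (1 : ℝ) else 0) - agree u v with hfdef
  have hn0 : (n : ℝ) ≠ 0 := by exact_mod_cast hn.ne'
  have hf : ∑ k, f k = 0 := by
    rw [hfdef]
    rw [Finset.sum_sub_distrib]
    unfold agree
    simp only [Finset.sum_const, Finset.card_univ, Fintype.card_fin, nsmul_eq_mul]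
    field_simp
    ring
  have hb : ∀ k, |f k| ≤ 1 := by
    intro k
    have h1 := agree_nonneg u v
    have h2 := agree_le u v
    rw [abs_le]
    simp only [hfdef]
    split_ifs <;> constructor <;> linarith
  have key : ∀ K : Fin m → Fin n,
      agree (fun l => u (K l)) (fun l => v (K l)) - agree u v = (∑ l, f (K l)) / m := by
    intro K
    rw [eq_div_iff hm0.ne', sub_mul]
    simp only [hfdef, Finset.sum_sub_distrib]
    unfold agree
    simp only [Finset.sum_const, Finset.card_univ, Fintype.card_fin, nsmul_eq_mul]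
    field_simp
  have h1 : ∀ K : Fin m → Fin n,
      |agree (fun l => u (K l)) (fun l => v (K l)) - agree u v| ≤
        (η + (∑ l, f (K l)) ^ 2 / (m ^ 2 * η)) / 2 := by
    intro K
    rw [key K]
    set t := (∑ l, f (K l)) / m with ht
    have h2 : (∑ l, f (K l)) ^ 2 / (m ^ 2 * η) = |t| ^ 2 / η := by
      rw [ht, sq_abs]
      field_simp
    rw [h2]
    have h3 : 0 ≤ (|t| - η) ^ 2 / η := by positivity
    have h4 : (|t| - η) ^ 2 / η = |t| ^ 2 / η - 2 * |t| + η := by
      field_simp
      ring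
    linarith
  calc ∑ K : Fin m → Fin n, |agree (fun l => u (K l)) (fun l => v (K l)) - agree u v|
      ≤ ∑ K : Fin m → Fin n, (η + (∑ l, f (K l)) ^ 2 / (m ^ 2 * η)) / 2 :=
        Finset.sum_le_sum fun K _ => h1 K
    _ = (η * (n : ℝ) ^ m + (∑ K : Fin m → Fin n, (∑ l, f (K l)) ^ 2) / (m ^ 2 * η)) / 2 := by
        rw [← Finset.sum_div, Finset.sum_add_distrib, ← Finset.sum_div]
        simp [mul_comm]
    _ ≤ (η * (n : ℝ) ^ m + (m * (n : ℝ) ^ m) / (m ^ 2 * η)) / 2 := by
        gcongr
        exact sum_sq f hf hb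
    _ ≤ η * (n : ℝ) ^ m := by
        have h5 : (m * (n : ℝ) ^ m) / (m ^ 2 * η) ≤ η * (n : ℝ) ^ m := by
          rw [div_le_iff₀ (by positivity)]
          have h6 : (0 : ℝ) ≤ (n : ℝ) ^ m * m := by positivity
          nlinarith
        linarith


/-- The pairs `i < j`. -/
abbrev Pr (n : ℕ) : Type := {p : Fin n × Fin n // p.1 < p.2}

/-- The factor of a pair, `b` telling whether the pair is an edge. -/
noncomputable def fac {a : ℕ} (u v : Fin a → Bool) (b : Bool) : ℝ :=
  if b then 1 - agree u v else agree u v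

lemma fac_nonneg {a : ℕ} (u v : Fin a → Bool) (b : Bool) : 0 ≤ fac u v b := by
  unfold fac
  have h1 := agree_nonneg u v
  have h2 := agree_le u v
  split_ifs <;> linarith

/-- The sum over the graphs with `h` fixed. -/
lemma sum_fixed {n m : ℕ} {δ : ℝ} (hδ : 0 < δ) (y : Fin n → Fin m → Bool)
    {ι : Type*} [Fintype ι] (code : ι → Pr n → Bool) (hc : Function.Injective code) :
    ∑ G : ι, ∏ p : Pr n, (fac (y p.1.1) (y p.1.2) (code G p) + δ) ≤
      (1 + 2 * δ) ^ (Fintype.card (Pr n)) := by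
  classical
  have h0 : ∀ c : Pr n → Bool, 0 ≤ ∏ p : Pr n, (fac (y p.1.1) (y p.1.2) (c p) + δ) := by
    intro c
    apply Finset.prod_nonneg
    intro p _
    have := fac_nonneg (y p.1.1) (y p.1.2) (c p)
    linarith
  calc ∑ G : ι, ∏ p : Pr n, (fac (y p.1.1) (y p.1.2) (code G p) + δ)
      = ∑ c ∈ Finset.univ.image code, ∏ p : Pr n, (fac (y p.1.1) (y p.1.2) (c p) + δ) := by
        rw [Finset.sum_image]
        intro a _ b _ h
        exact hc h
    _ ≤ ∑ c : Pr n → Bool, ∏ p : Pr n, (fac (y p.1.1) (y p.1.2) (c p) + δ) := by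
        apply Finset.sum_le_sum_of_subset_of_nonneg (Finset.subset_univ _)
        intro c _ _
        exact h0 c
    _ = ∏ p : Pr n, ∑ b : Bool, (fac (y p.1.1) (y p.1.2) b + δ) := by
        rw [Finset.prod_univ_sum, Fintype.piFinset_univ]
    _ = (1 + 2 * δ) ^ (Fintype.card (Pr n)) := by
        rw [← Finset.card_univ, ← Finset.prod_const]
        apply Finset.prod_congr rfl
        intro p _
        rw [Fintype.sum_bool]
        unfold fac
        simp
        ring

/-- One graph: a good sample exists. -/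
lemma one_graph {n m : ℕ} (hn : 0 < n) {η δ : ℝ} (hη : 0 < η) (hδ : 0 < δ)
    (hm : 1 ≤ η ^ 2 * m) (A : Fin n → Fin n → Bool) (b : Pr n → Bool) :
    ∏ p : Pr n, fac (A p.1.1) (A p.1.2) (b p) ≤
      Real.exp (η * Fintype.card (Pr n) / δ) *
        ∑ K : Fin m → Fin n, ∑ y : Fin n → Fin m → Bool,
          ∏ p : Pr n, (fac (y p.1.1) (y p.1.2) (b p) + δ) := by
  classical
  set D : (Fin m → Fin n) → Pr n → ℝ := fun K p =>
    |agree (fun l => A p.1.1 (K l)) (fun l => A p.1.2 (K l)) - agree (A p.1.1) (A p.1.2)| with hD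
  have h1 : ∃ K : Fin m → Fin n, ∑ p : Pr n, D K p ≤ η * Fintype.card (Pr n) := by
    by_contra hcon
    push Not at hcon
    have hne : (Finset.univ : Finset (Fin m → Fin n)).Nonempty :=
      ⟨fun _ => ⟨0, hn⟩, Finset.mem_univ _⟩
    have h2 : ∑ K : Fin m → Fin n, η * (Fintype.card (Pr n) : ℝ) <
        ∑ K : Fin m → Fin n, ∑ p : Pr n, D K p :=
      Finset.sum_lt_sum_of_nonempty hne fun K _ => hcon K
    rw [Finset.sum_comm] at h2
    have h3 : ∑ p : Pr n, ∑ K : Fin m → Fin n, D K p ≤ ∑ p : Pr n, η * (n : ℝ) ^ m :=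
      Finset.sum_le_sum fun p _ => sample hn hη hm (A p.1.1) (A p.1.2)
    simp only [Finset.sum_const, Finset.card_univ, nsmul_eq_mul, Fintype.card_fun,
      Fintype.card_fin, Nat.cast_pow] at h2 h3
    nlinarith
  obtain ⟨K, hK⟩ := h1
  set y : Fin n → Fin m → Bool := fun i l => A i (K l) with hy
  have h4 : ∀ p : Pr n, fac (A p.1.1) (A p.1.2) (b p) ≤
      (fac (y p.1.1) (y p.1.2) (b p) + δ) * Real.exp (D K p / δ) := by
    intro p
    have h5 : fac (A p.1.1) (A p.1.2) (b p) ≤ fac (y p.1.1) (y p.1.2) (b p) + D K p := by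
      have h6 := abs_le.mp (le_refl (D K p))
      have h7 := le_abs_self
        (agree (fun l => A p.1.1 (K l)) (fun l => A p.1.2 (K l)) - agree (A p.1.1) (A p.1.2))
      have h8 := neg_abs_le
        (agree (fun l => A p.1.1 (K l)) (fun l => A p.1.2 (K l)) - agree (A p.1.1) (A p.1.2))
      simp only [hD, hy]
      unfold fac
      split_ifs <;> linarith
    have h9 : D K p / δ + 1 ≤ Real.exp (D K p / δ) := Real.add_one_le_exp _
    have h10 : 0 ≤ fac (y p.1.1) (y p.1.2) (b p) := fac_nonneg _ _ _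
    have h11 : 0 ≤ D K p := abs_nonneg _
    calc fac (A p.1.1) (A p.1.2) (b p) ≤ fac (y p.1.1) (y p.1.2) (b p) + D K p := h5
      _ ≤ (fac (y p.1.1) (y p.1.2) (b p) + δ) * (D K p / δ + 1) := by
          have h12 : (fac (y p.1.1) (y p.1.2) (b p) + δ) * (D K p / δ + 1) =
              fac (y p.1.1) (y p.1.2) (b p) + D K p +
                (fac (y p.1.1) (y p.1.2) (b p) * (D K p / δ) + δ) := by
            field_simp
            ring
          rw [h12]
          have : 0 ≤ fac (y p.1.1) (y p.1.2) (b p) * (D K p / δ) + δ := by positivity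
          linarith
      _ ≤ _ := by
          apply mul_le_mul_of_nonneg_left h9
          linarith
  have hpos : ∀ (y : Fin n → Fin m → Bool),
      0 ≤ ∏ p : Pr n, (fac (y p.1.1) (y p.1.2) (b p) + δ) := by
    intro y
    apply Finset.prod_nonneg
    intro p _
    have := fac_nonneg (y p.1.1) (y p.1.2) (b p)
    linarith
  calc ∏ p : Pr n, fac (A p.1.1) (A p.1.2) (b p)
      ≤ ∏ p : Pr n, ((fac (y p.1.1) (y p.1.2) (b p) + δ) * Real.exp (D K p / δ)) :=
        Finset.prod_le_prod (fun p _ => fac_nonneg _ _ _) fun p _ => h4 p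
    _ = (∏ p : Pr n, (fac (y p.1.1) (y p.1.2) (b p) + δ)) *
          Real.exp ((∑ p : Pr n, D K p) / δ) := by
        rw [Finset.prod_mul_distrib, ← Real.exp_sum, Finset.sum_div]
    _ ≤ (∑ K : Fin m → Fin n, ∑ y : Fin n → Fin m → Bool,
          ∏ p : Pr n, (fac (y p.1.1) (y p.1.2) (b p) + δ)) *
          Real.exp (η * Fintype.card (Pr n) / δ) := by
        apply mul_le_mul
        · calc ∏ p : Pr n, (fac (y p.1.1) (y p.1.2) (b p) + δ)
              ≤ ∑ y : Fin n → Fin m → Bool, ∏ p : Pr n, (fac (y p.1.1) (y p.1.2) (b p) + δ) :=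
                Finset.single_le_sum (f := fun y : Fin n → Fin m → Bool =>
                  ∏ p : Pr n, (fac (y p.1.1) (y p.1.2) (b p) + δ))
                  (fun y _ => hpos y) (Finset.mem_univ y)
            _ ≤ _ :=
                Finset.single_le_sum (f := fun _ : Fin m → Fin n =>
                  ∑ y : Fin n → Fin m → Bool, ∏ p : Pr n, (fac (y p.1.1) (y p.1.2) (b p) + δ))
                  (fun K _ => Finset.sum_nonneg fun y _ => hpos y) (Finset.mem_univ K)
        · apply Real.exp_le_exp.mpr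
          gcongr
        · positivity
        · exact Finset.sum_nonneg fun K _ => Finset.sum_nonneg fun y _ => hpos y
    _ = _ := mul_comm _ _

/-- The sum over all graphs. -/
lemma total {n m : ℕ} (hn : 0 < n) {η δ : ℝ} (hη : 0 < η) (hδ : 0 < δ)
    (hm : 1 ≤ η ^ 2 * m) {ι : Type*} [Fintype ι] (A : ι → Fin n → Fin n → Bool)
    (code : ι → Pr n → Bool) (hc : Function.Injective code) :
    ∑ G : ι, ∏ p : Pr n, fac (A G p.1.1) (A G p.1.2) (code G p) ≤
      Real.exp (η * Fintype.card (Pr n) / δ) *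
        ((n : ℝ) ^ m * (2 ^ (m * n) * (1 + 2 * δ) ^ (Fintype.card (Pr n)))) := by
  classical
  calc ∑ G : ι, ∏ p : Pr n, fac (A G p.1.1) (A G p.1.2) (code G p)
      ≤ ∑ G : ι, Real.exp (η * Fintype.card (Pr n) / δ) *
        ∑ K : Fin m → Fin n, ∑ y : Fin n → Fin m → Bool,
          ∏ p : Pr n, (fac (y p.1.1) (y p.1.2) (code G p) + δ) :=
        Finset.sum_le_sum fun G _ => one_graph hn hη hδ hm (A G) (code G)
    _ = Real.exp (η * Fintype.card (Pr n) / δ) *
        ∑ K : Fin m → Fin n, ∑ y : Fin n → Fin m → Bool, ∑ G : ι,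
          ∏ p : Pr n, (fac (y p.1.1) (y p.1.2) (code G p) + δ) := by
        rw [← Finset.mul_sum, Finset.sum_comm]
        congr 1
        apply Finset.sum_congr rfl
        intro K _
        rw [Finset.sum_comm]
    _ ≤ Real.exp (η * Fintype.card (Pr n) / δ) *
        ∑ K : Fin m → Fin n, ∑ y : Fin n → Fin m → Bool, (1 + 2 * δ) ^ (Fintype.card (Pr n)) := by
        apply mul_le_mul_of_nonneg_left _ (Real.exp_pos _).le
        apply Finset.sum_le_sum
        intro K _
        apply Finset.sum_le_sum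
        intro y _
        exact sum_fixed hδ y code hc
    _ = _ := by
        simp only [Finset.sum_const, Finset.card_univ, nsmul_eq_mul, Fintype.card_fun,
          Fintype.card_fin, Nat.cast_pow, Fintype.card_bool, Nat.cast_ofNat]
        rw [← pow_mul]

/-- Numbers. -/
lemma numbers {ε : ℝ} (hε : 0 < ε) : ∃ (η δ : ℝ) (m N : ℕ), 0 < η ∧ 0 < δ ∧ 1 ≤ η ^ 2 * m ∧
    3 ≤ N ∧ ∀ n : ℕ, N ≤ n → ∀ P : ℕ, P ≤ n ^ 2 →
      Real.exp (η * P / δ) * ((n : ℝ) ^ m * (2 ^ (m * n) * (1 + 2 * δ) ^ P)) ≤
        (2 : ℝ) ^ (ε * (n : ℝ) ^ 2) := by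
  set δ : ℝ := ε / 12 with hδ
  have hδ0 : 0 < δ := by positivity
  obtain ⟨m, hm⟩ := exists_nat_ge (1 / (δ ^ 2) ^ 2)
  obtain ⟨N, hN⟩ := exists_nat_ge (4 * m / ε)
  refine ⟨δ ^ 2, δ, m, max N 3, by positivity, hδ0, ?_, le_max_right _ _, ?_⟩
  · rw [div_le_iff₀ (by positivity)] at hm
    linarith
  · intro n hn P hP
    have hnN : (4 * m / ε : ℝ) ≤ n := hN.trans (by exact_mod_cast (le_max_left N 3).trans hn)
    have hP' : (P : ℝ) ≤ (n : ℝ) ^ 2 := by exact_mod_cast hP
    rw [div_le_iff₀ hε] at hnN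
    have hn0 : (0 : ℝ) ≤ n := by positivity
    have h1 : (n : ℝ) ^ m ≤ 2 ^ (m * n) := by
      have : (n : ℝ) ≤ 2 ^ n := by exact_mod_cast (Nat.lt_two_pow_self (n := n)).le
      calc (n : ℝ) ^ m ≤ (2 ^ n) ^ m := pow_le_pow_left₀ hn0 this m
        _ = 2 ^ (m * n) := by rw [← pow_mul, mul_comm]
    have h2 : (1 + 2 * δ) ^ P ≤ Real.exp (2 * δ * n ^ 2) := by
      calc (1 + 2 * δ) ^ P ≤ (Real.exp (2 * δ)) ^ P := by
            apply pow_le_pow_left₀ (by positivity)
            have := Real.add_one_le_exp (2 * δ)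
            linarith
        _ = Real.exp (P * (2 * δ)) := by rw [← Real.exp_nat_mul]
        _ ≤ _ := by
            apply Real.exp_le_exp.mpr
            nlinarith
    have h3 : Real.exp (δ ^ 2 * P / δ) ≤ Real.exp (δ * n ^ 2) := by
      apply Real.exp_le_exp.mpr
      have : δ ^ 2 * P / δ = δ * P := by field_simp
      rw [this]
      gcongr
    have h4 : (2 : ℝ) ^ (m * n) = Real.exp (m * n * Real.log 2) := by
      rw [← Real.rpow_natCast, Real.rpow_def_of_pos (by norm_num)]
      push_cast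
      ring_nf
    have h5 : (2 : ℝ) ^ (ε * (n : ℝ) ^ 2) = Real.exp (ε * n ^ 2 * Real.log 2) := by
      rw [Real.rpow_def_of_pos (by norm_num)]
      ring_nf
    have hlog : (1 : ℝ) / 2 ≤ Real.log 2 := by
      have := Real.log_two_gt_d9
      linarith
    calc Real.exp (δ ^ 2 * P / δ) * ((n : ℝ) ^ m * (2 ^ (m * n) * (1 + 2 * δ) ^ P))
        ≤ Real.exp (δ * n ^ 2) * (2 ^ (m * n) * (2 ^ (m * n) * Real.exp (2 * δ * n ^ 2))) := by
          gcongr
      _ = Real.exp (3 * δ * n ^ 2 + 2 * (m * n) * Real.log 2) := by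
          rw [h4, ← Real.exp_add, ← Real.exp_add, ← Real.exp_add]
          ring_nf
      _ ≤ _ := by
          rw [h5]
          apply Real.exp_le_exp.mpr
          have h6 : 2 * ((m : ℝ) * n) ≤ ε * n ^ 2 / 2 := by nlinarith
          have h7 : 3 * δ * n ^ 2 ≤ ε * n ^ 2 / 2 * Real.log 2 := by
            have h8 : 0 ≤ ε * n ^ 2 / 2 := by positivity
            have h9 : 3 * δ * (n : ℝ) ^ 2 = ε * n ^ 2 / 2 * (1 / 2) := by
              rw [hδ]
              ring
            rw [h9]
            exact mul_le_mul_of_nonneg_left hlog h8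
          nlinarith

end Pool.Agent.W2lead.EvenTriples
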