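import Mathlib

/-!
# Perfect matchings and circuits with a record of the negated inputs
-/

namespace Pool.Agent.W2lead.PM

/-- `Circuit s G`: some circuit in negation normal form (negations only at the inputs) with `s` AND and
OR gates of fan-in two, the results of which may be used any number of times, computes all functions in
the set `G`. The functions have two arguments: the set `S` of the negated inputs that may be used (each
negated input outside `S` is replaced by the constant false) and the input `x`. -/
inductive Circuit {I : Type} : ℕ → Set ((I → Bool) → (I → Bool) → Bool) → Prop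
  | inputs : Circuit 0 {f | (∃ b, f = fun _ _ => b) ∨ (∃ i, f = fun _ x => x i) ∨
      ∃ i, f = fun S x => S i && !(x i)}
  | and {s : ℕ} {G : Set ((I → Bool) → (I → Bool) → Bool)} {f g : (I → Bool) → (I → Bool) → Bool}
      (hG : Circuit s G) (hf : f ∈ G) (hg : g ∈ G) :
      Circuit (s + 1) (insert (fun S x => f S x && g S x) G)
  | or {s : ℕ} {G : Set ((I → Bool) → (I → Bool) → Bool)} {f g : (I → Bool) → (I → Bool) → Bool}
      (hG : Circuit s G) (hf : f ∈ G) (hg : g ∈ G) :
      Circuit (s + 1) (insert (fun S x => f S x || g S x) G)

/-- `f` is computed by a circuit in negation normal form with at most `s` gates. -/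
def HasSize {I : Type} (s : ℕ) (f : (I → Bool) → (I → Bool) → Bool) : Prop :=
  ∃ s' ≤ s, ∃ G, Circuit s' G ∧ f ∈ G

/-- the circuit accepts the input `x` -/
def Accepts {I : Type} (f : (I → Bool) → (I → Bool) → Bool) (x : I → Bool) : Prop :=
  f (fun _ => true) x = true

open Classical in
/-- the circuit accepts the input `x` by means of at most `t` negated inputs -/
def AcceptsWith {I : Type} (t : ℕ) (f : (I → Bool) → (I → Bool) → Bool) (x : I → Bool) : Prop :=
  ∃ S : Finset I, S.card ≤ t ∧ f (fun i => decide (i ∈ S)) x = true

/-- the graph with the vertex set `V` given by the bits `x` (bits of loops are ignored) -/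
def graph {V : Type} (x : Sym2 V → Bool) : SimpleGraph V :=
  SimpleGraph.fromEdgeSet {e | x e = true}

/-- the graph has a perfect matching -/
def HasPM {V : Type} (x : Sym2 V → Bool) : Prop := ∃ M : (graph x).Subgraph, M.IsPerfectMatching

lemma graph_adj {V : Type} {x : Sym2 V → Bool} {u v : V} :
    (graph x).Adj u v ↔ x s(u, v) = true ∧ u ≠ v := by
  unfold graph
  rw [SimpleGraph.fromEdgeSet_adj]
  rfl

lemma hasPM_of_invol {V : Type} {x : Sym2 V → Bool} (f : V → V) (hf : ∀ v, f (f v) = v)
    (hadj : ∀ v, (graph x).Adj v (f v)) : HasPM x := by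
  refine ⟨{ verts := Set.univ, Adj := fun u v => f u = v, adj_sub := ?_, edge_vert := ?_,
            symm := ?_ }, ?_, ?_⟩
  · rintro u v rfl
    exact hadj u
  · intro u v _
    exact Set.mem_univ _
  · exact ⟨by rintro u v rfl; exact hf u⟩
  · intro v _
    exact ⟨f v, rfl, fun w h => Eq.symm h⟩
  · intro v
    exact Set.mem_univ _

end Pool.Agent.W2lead.PM
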