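import Pool.Agent.W2lead.PebNat

/-!
# Polynomial depth for circuits whose certificates use few negated inputs: the main inequality
-/

namespace Pool.Agent.W2lead.Depth

open Finset Pool.Agent.H560R2

lemma NNF.eval_mono {I : Type} {S S' : I → Bool} (hS : ∀ i, S i = true → S' i = true)
    (x : I → Bool) (φ : NNF I) : φ.eval S x = true → φ.eval S' x = true := by
  induction φ with
  | const b => exact id
  | pos i => exact id
  | neg i =>
    simp only [NNF.eval, Bool.and_eq_true]
    exact fun h => ⟨hS i h.1, h.2⟩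
  | and f g hf hg =>
    simp only [NNF.eval, Bool.and_eq_true]
    exact fun h => ⟨hf h.1, hg h.2⟩
  | or f g hf hg =>
    simp only [NNF.eval, Bool.or_eq_true]
    exact fun h => h.imp hf hg

/-- Without negated inputs from block `i` the circuit is a monotone tree in the inputs of the
block. -/
lemma nnf_md {r : ℕ} {V : Type} (i : Fin r) (z : Fin r × V → Bool) (φ : NNF (Fin r × V)) :
    MD (pbase V) φ.depth (fun w : V → Bool => φ.eval (fun p => decide (p.1 ≠ i))
      (fun p => if p.1 = i then w p.2 else z p)) := by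
  induction φ with
  | const b => exact MD.base (Or.inl ⟨b, rfl⟩)
  | pos p =>
    obtain ⟨j, v⟩ := p
    by_cases hj : j = i
    · subst hj
      refine MD.base (Or.inr ⟨v, ?_⟩)
      funext w
      simp [NNF.eval]
    · refine MD.base (Or.inl ⟨z (j, v), ?_⟩)
      funext w
      simp [NNF.eval, hj]
  | neg p =>
    obtain ⟨j, v⟩ := p
    by_cases hj : j = i
    · subst hj
      refine MD.base (Or.inl ⟨false, ?_⟩)
      funext w
      simp [NNF.eval]
    · refine MD.base (Or.inl ⟨!(z (j, v)), ?_⟩)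
      funext w
      simp [NNF.eval, hj]
  | and f g hf hg =>
    exact MD.and (hf.mono (le_max_left _ _)) (hg.mono (le_max_right _ _))
  | or f g hf hg =>
    exact MD.or (hf.mono (le_max_left _ _)) (hg.mono (le_max_right _ _))

lemma sum_update {r : ℕ} {X : Type} [Fintype X] (i : Fin r) (F : (Fin r → X) → ℝ) :
    ∑ y : Fin r → X, ∑ x : X, F (Function.update y i x) = Fintype.card X * ∑ y, F y := by
  classical
  have hinv : Function.Involutive
      (fun p : (Fin r → X) × X => (Function.update p.1 i p.2, p.1 i)) := by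
    rintro ⟨y, x⟩
    simp
  have h1 := Equiv.sum_comp (Function.Involutive.toPerm _ hinv)
    (fun p : (Fin r → X) × X => F p.1)
  have h2 : ∑ p : (Fin r → X) × X, F ((Function.Involutive.toPerm _ hinv) p).1 =
      ∑ y : Fin r → X, ∑ x : X, F (Function.update y i x) := by
    rw [Fintype.sum_prod_type]
    rfl
  rw [← h2, h1, Fintype.sum_prod_type, Finset.mul_sum]
  apply Finset.sum_congr rfl
  intro y _
  show ∑ _x : X, F y = Fintype.card X * F y
  rw [Finset.sum_const, Finset.card_univ, nsmul_eq_mul]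

/-- the input made of yes-instances -/
def inp {r h q : ℕ} (x : Fin r → (PV h → Fin q)) : Fin r × Var h q → Bool := fun p => al (x p.1) p.2

lemma inp_top {r h : ℕ} (x : Fin r → (PV h → Fin (vals h))) : AllTops r h (inp x) := by
  intro i
  exact al_top (x i)

open Classical in
/-- The main inequality. -/
theorem main_ineq (h r t D : ℕ) (hr : 0 < r) (δ : ℝ) (hδ : 0 ≤ δ) (R : Type) [Fintype R]
    [Nonempty R]
    (C : R → NNF (Bits r h)) (hD : ∀ ρ, (C ρ).depth ≤ D)
    (hno : ∀ ρ x, ¬ AllTops r h x → ¬ (C ρ).Accepts x)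
    (hyes : ∀ x : Fin r → (PV h → Fin (vals h)),
      δ * Fintype.card R ≤ ((univ.filter (fun ρ => (C ρ).AcceptsWith t (inp x))).card : ℝ)) :
    δ * (1 - (t : ℝ) / r) * (4 ^ (h + 1) * ((h : ℝ) + 1) ^ 2) ≤ 2 ^ D := by
  have hq : vals h = 4 * (h + 1) ^ 2 := rfl
  have hqpos : 0 < vals h := by rw [hq]; positivity
  have : NeZero (vals h) := ⟨hqpos.ne'⟩
  have hr0 : (0 : ℝ) < r := by exact_mod_cast hr
  have hR0 : (0 : ℝ) < Fintype.card R := by exact_mod_cast Fintype.card_pos
  by_cases htr : (r : ℝ) ≤ t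
  · have h1 : 1 - (t : ℝ) / r ≤ 0 := by
      rw [sub_nonpos, le_div_iff₀ hr0]; linarith
    have h2 : δ * (1 - (t : ℝ) / r) * (4 ^ (h + 1) * ((h : ℝ) + 1) ^ 2) ≤ 0 := by
      apply mul_nonpos_of_nonpos_of_nonneg
      · exact mul_nonpos_of_nonneg_of_nonpos hδ h1
      · positivity
    linarith [pow_pos (zero_lt_two (α := ℝ)) D]
  push Not at htr
  -- acceptance without negated inputs of block `i`
  let G : Fin r → R → (Fin r → (PV h → Fin (vals h))) → ℝ := fun i ρ x =>
    if (C ρ).eval (fun p => decide (p.1 ≠ i)) (inp x) = true then 1 else 0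
  let A : R → (Fin r → (PV h → Fin (vals h))) → ℝ := fun ρ x =>
    if (C ρ).AcceptsWith t (inp x) then 1 else 0
  have hAG : ∀ ρ x, ((r : ℝ) - t) * A ρ x ≤ ∑ i, G i ρ x := by
    intro ρ x
    by_cases hacc : (C ρ).AcceptsWith t (inp x)
    · obtain ⟨S, hS, hev⟩ := id hacc
      have h1 : ∀ i ∈ (S.image Prod.fst)ᶜ, G i ρ x = 1 := by
        intro i hi
        rw [Finset.mem_compl, Finset.mem_image] at hi
        simp only [G]
        rw [if_pos]
        apply NNF.eval_mono _ _ _ hev
        intro p hp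
        have hp' : p ∈ S := @of_decide_eq_true _ (_) hp
        exact decide_eq_true (fun hpi => hi ⟨p, hp', hpi⟩)
      have h2 : ∑ i ∈ (S.image Prod.fst)ᶜ, G i ρ x ≤ ∑ i, G i ρ x := by
        apply Finset.sum_le_sum_of_subset_of_nonneg (Finset.subset_univ _)
        intro i _ _
        simp only [G]
        split_ifs <;> norm_num
      rw [Finset.sum_congr rfl h1, Finset.sum_const, nsmul_eq_mul, mul_one,
        Finset.card_compl, Fintype.card_fin] at h2
      have h3 : (S.image Prod.fst).card ≤ t := Finset.card_image_le.trans hS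
      have h4 : (S.image Prod.fst).card ≤ r := by
        have := Finset.card_le_univ (S.image Prod.fst)
        rwa [Fintype.card_fin] at this
      rw [Nat.cast_sub h4] at h2
      have h5 : ((S.image Prod.fst).card : ℝ) ≤ t := by exact_mod_cast h3
      simp only [A, hacc, if_true]
      linarith
    · simp only [A, hacc, if_false, mul_zero]
      apply Finset.sum_nonneg
      intro i _
      simp only [G]
      split_ifs <;> norm_num
  have hsumA : ∀ x, δ * Fintype.card R ≤ ∑ ρ, A ρ x := by
    intro x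
    have h1 := hyes x
    rw [Finset.card_filter, Nat.cast_sum] at h1
    refine h1.trans (le_of_eq (Finset.sum_congr rfl fun ρ _ => ?_))
    simp only [A]
    split_ifs <;> simp
  -- a good block
  obtain ⟨K, hK⟩ : ∃ K : ℝ, K = Fintype.card (Fin r → (PV h → Fin (vals h))) := ⟨_, rfl⟩
  have hK0 : 0 < K := by rw [hK]; exact_mod_cast Fintype.card_pos
  have htot : ((r : ℝ) - t) * (δ * Fintype.card R * K) ≤ ∑ i, ∑ ρ, ∑ x, G i ρ x := by
    calc ((r : ℝ) - t) * (δ * Fintype.card R * K)
        = ∑ _x : Fin r → (PV h → Fin (vals h)), ((r : ℝ) - t) * (δ * Fintype.card R) := by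
          rw [Finset.sum_const, Finset.card_univ, nsmul_eq_mul, ← hK]; ring
      _ ≤ ∑ x, ((r : ℝ) - t) * ∑ ρ, A ρ x :=
          Finset.sum_le_sum fun x _ => mul_le_mul_of_nonneg_left (hsumA x) (by linarith)
      _ = ∑ x, ∑ ρ, ((r : ℝ) - t) * A ρ x :=
          Finset.sum_congr rfl fun x _ => Finset.mul_sum _ _ _
      _ ≤ ∑ x, ∑ ρ, ∑ i, G i ρ x :=
          Finset.sum_le_sum fun x _ => Finset.sum_le_sum fun ρ _ => hAG ρ x
      _ = ∑ i, ∑ ρ, ∑ x, G i ρ x := by
          rw [Finset.sum_comm]
          simp_rw [Finset.sum_comm (s := (univ : Finset (Fin r → (PV h → Fin (vals h)))))]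
          rw [Finset.sum_comm]
  obtain ⟨i, hi⟩ : ∃ i : Fin r, (1 - (t : ℝ) / r) * (δ * Fintype.card R * K) ≤
      ∑ ρ, ∑ x, G i ρ x := by
    by_contra hcon
    push Not at hcon
    have hne : (univ : Finset (Fin r)).Nonempty := ⟨⟨0, hr⟩, Finset.mem_univ _⟩
    have h1 := Finset.sum_lt_sum_of_nonempty hne (fun i _ => hcon i)
    rw [Finset.sum_const, Finset.card_univ, Fintype.card_fin, nsmul_eq_mul] at h1
    have h2 : (r : ℝ) * ((1 - (t : ℝ) / r) * (δ * Fintype.card R * K)) =
        ((r : ℝ) - t) * (δ * Fintype.card R * K) := by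
      field_simp
    linarith
  -- good other blocks
  obtain ⟨N, hN⟩ : ∃ N : ℝ, N = Fintype.card (PV h → Fin (vals h)) := ⟨_, rfl⟩
  have hN0 : 0 < N := by rw [hN]; exact_mod_cast Fintype.card_pos
  obtain ⟨ρ, y, hρy⟩ : ∃ ρ, ∃ y : Fin r → (PV h → Fin (vals h)),
      N * ((1 - (t : ℝ) / r) * δ) ≤ ∑ x, G i ρ (Function.update y i x) := by
    by_contra hcon
    push Not at hcon
    have h1 : ∑ ρ : R, ∑ y : Fin r → (PV h → Fin (vals h)),
        ∑ x, G i ρ (Function.update y i x) < ∑ _ρ : R, ∑ _y : Fin r → (PV h → Fin (vals h)),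
          N * ((1 - (t : ℝ) / r) * δ) := by
      apply Finset.sum_lt_sum_of_nonempty Finset.univ_nonempty
      intro ρ _
      apply Finset.sum_lt_sum_of_nonempty Finset.univ_nonempty
      intro y _
      exact hcon ρ y
    have h2 : ∀ ρ : R, ∑ y : Fin r → (PV h → Fin (vals h)), ∑ x, G i ρ (Function.update y i x) =
        N * ∑ y, G i ρ y := by
      intro ρ
      rw [sum_update i (G i ρ), hN]
    simp_rw [h2] at h1
    rw [← Finset.mul_sum, Finset.sum_const, Finset.sum_const, Finset.card_univ, Finset.card_univ,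
      nsmul_eq_mul, nsmul_eq_mul, ← hK] at h1
    have h3 : (Fintype.card R : ℝ) * (K * (N * ((1 - (t : ℝ) / r) * δ))) =
        N * ((1 - (t : ℝ) / r) * (δ * Fintype.card R * K)) := by ring
    rw [h3] at h1
    have := lt_of_mul_lt_mul_left h1 hN0.le
    linarith
  -- the monotone tree
  have hg := (nnf_md i (inp y) (C ρ)).mono (hD ρ)
  have hrob := robust h (vals h) hq hg
    (fun x => (C ρ).eval (fun p => decide (p.1 ≠ i)) (inp (Function.update y i x))) (by
      intro x hx
      rw [← hx]
      congr 1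
      funext p
      unfold inp
      by_cases hp : p.1 = i
      · simp only [hp, if_true, Function.update_self]
      · simp only [hp, if_false, Function.update_of_ne hp]) (by
      intro y'
      by_contra hcon
      rw [Bool.not_eq_false] at hcon
      have hacc := NNF.eval_mono (S' := fun _ => true) (fun _ _ => rfl) _ _ hcon
      refine hno ρ _ ?_ hacc
      intro hall
      have := hall i
      simp only [if_true] at this
      exact be_top y' this)
  have hcardU : ((univ.filter (fun x => (C ρ).eval (fun p => decide (p.1 ≠ i))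
      (inp (Function.update y i x)) = true)).card : ℝ) = ∑ x, G i ρ (Function.update y i x) := by
    rw [Finset.card_filter, Nat.cast_sum]
    refine Finset.sum_congr rfl fun x _ => ?_
    simp only [G]
    split_ifs <;> simp
  have hrob' : (∑ x, G i ρ (Function.update y i x)) * (4 ^ (h + 1) * ((h : ℝ) + 1) ^ 2) ≤
      2 ^ D * N := by
    rw [← hcardU, hN]
    exact_mod_cast hrob
  have hfin : N * (δ * (1 - (t : ℝ) / r) * (4 ^ (h + 1) * ((h : ℝ) + 1) ^ 2)) ≤ N * 2 ^ D := by
    calc N * (δ * (1 - (t : ℝ) / r) * (4 ^ (h + 1) * ((h : ℝ) + 1) ^ 2))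
        = (N * ((1 - (t : ℝ) / r) * δ)) * (4 ^ (h + 1) * ((h : ℝ) + 1) ^ 2) := by ring
      _ ≤ (∑ x, G i ρ (Function.update y i x)) * (4 ^ (h + 1) * ((h : ℝ) + 1) ^ 2) :=
          mul_le_mul_of_nonneg_right hρy (by positivity)
      _ ≤ 2 ^ D * N := hrob'
      _ = N * 2 ^ D := mul_comm _ _
  exact le_of_mul_le_mul_left hfin hN0

end Pool.Agent.W2lead.Depth
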