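import Pool.Agent.W2lead.NegAvg
import Pool.Agent.W2lead.PMDefs
import Pool.Agent.W2helper58.MatAvg

/-!
# Few negated inputs: perfect matching
-/

namespace Pool.Agent.W2lead.PM

open Finset Pool.Agent.H560R2

lemma circuit_mono {I : Type} {s : ℕ} {G : Set ((I → Bool) → (I → Bool) → Bool)}
    (hG : Circuit s G) : ∀ f ∈ G, ∀ (S S' x : I → Bool), (∀ i, S i = true → S' i = true) →
      f S x = true → f S' x = true := by
  induction hG with
  | inputs =>
    rintro f (⟨b, rfl⟩ | ⟨i, rfl⟩ | ⟨i, rfl⟩) S S' x hS h
    · exact h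
    · exact h
    · simp only [Bool.and_eq_true] at h ⊢
      exact ⟨hS i h.1, h.2⟩
  | and hG hf hg ih =>
    intro f' hf' S S' x hS h
    rcases Set.mem_insert_iff.mp hf' with rfl | hf'
    · simp only [Bool.and_eq_true] at h ⊢
      exact ⟨ih _ hf S S' x hS h.1, ih _ hg S S' x hS h.2⟩
    · exact ih _ hf' S S' x hS h
  | or hG hf hg ih =>
    intro f' hf' S S' x hS h
    rcases Set.mem_insert_iff.mp hf' with rfl | hf'
    · simp only [Bool.or_eq_true] at h ⊢
      rcases h with h | h
      · exact Or.inl (ih _ hf S S' x hS h)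
      · exact Or.inr (ih _ hg S S' x hS h)
    · exact ih _ hf' S S' x hS h

section

variable {V : Type} {r k q : ℕ} (e : (Fin r × Fin k × Bool) ⊕ (Fin q × Bool) ≃ V)

/-- the pair of vertices `(a, b)` of block `i` -/
def slot (p : Fin r × (Fin k × Fin k)) : Sym2 V :=
  s(e (Sum.inl (p.1, p.2.1, false)), e (Sum.inl (p.1, p.2.2, true)))

/-- the fixed edges -/
def fixedE (c : Fin q) : Sym2 V := s(e (Sum.inr (c, false)), e (Sum.inr (c, true)))

open Classical in
/-- the graph with the given blocks -/
noncomputable def place (z : Fin r → Set (Fin k × Fin k)) : Sym2 V → Bool := fun s =>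
  decide ((∃ i p, s = slot e (i, p) ∧ p ∈ z i) ∨ ∃ c, s = fixedE e c)

lemma slot_inj {p p' : Fin r × (Fin k × Fin k)} (h : slot e p = slot e p') : p = p' := by
  unfold slot at h
  rw [Sym2.eq_iff] at h
  rcases h with ⟨h1, h2⟩ | ⟨h1, h2⟩
  · have h3 := Sum.inl.inj (e.injective h1)
    have h4 := Sum.inl.inj (e.injective h2)
    simp only [Prod.mk.injEq, and_true] at h3 h4
    exact Prod.ext h3.1 (Prod.ext h3.2 h4.2)
  · have h3 := Sum.inl.inj (e.injective h1)
    simp only [Prod.mk.injEq] at h3
    exact absurd h3.2.2 (by simp)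

lemma slot_ne_fixed (p : Fin r × (Fin k × Fin k)) (c : Fin q) : slot e p ≠ fixedE e c := by
  intro h
  unfold slot fixedE at h
  rw [Sym2.eq_iff] at h
  rcases h with ⟨h1, -⟩ | ⟨h1, -⟩ <;> simpa using e.injective h1

lemma place_slot (z : Fin r → Set (Fin k × Fin k)) (i : Fin r) (p : Fin k × Fin k) :
    place e z (slot e (i, p)) = true ↔ p ∈ z i := by
  classical
  unfold place
  rw [decide_eq_true_eq]
  constructor
  · rintro (⟨i', p', h, hp⟩ | ⟨c, h⟩)
    · have h1 := slot_inj e h
      rw [Prod.mk.injEq] at h1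
      obtain ⟨rfl, rfl⟩ := h1
      exact hp
    · exact absurd h (slot_ne_fixed e _ c)
  · intro h
    exact Or.inl ⟨i, p, rfl, h⟩

lemma place_other (z z' : Fin r → Set (Fin k × Fin k)) (i : Fin r) (hz : ∀ j, j ≠ i → z j = z' j)
    (s : Sym2 V) (hs : ¬ ∃ p, s = slot e (i, p)) : place e z s = place e z' s := by
  classical
  unfold place
  rw [Bool.eq_iff_iff, decide_eq_true_eq, decide_eq_true_eq]
  have key : ∀ j p, s = slot e (j, p) → j ≠ i := by
    rintro j p h rfl
    exact hs ⟨p, h⟩
  constructor
  · rintro (⟨j, p, h, hp⟩ | h)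
    · exact Or.inl ⟨j, p, h, by rw [← hz j (key j p h)]; exact hp⟩
    · exact Or.inr h
  · rintro (⟨j, p, h, hp⟩ | h)
    · exact Or.inl ⟨j, p, h, by rw [hz j (key j p h)]; exact hp⟩
    · exact Or.inr h

lemma perm_of_hasPM {z : Fin r → Set (Fin k × Fin k)} (h : HasPM (place e z)) (i : Fin r) :
    ∃ σ : Equiv.Perm (Fin k), ∀ a, (a, σ a) ∈ z i := by
  classical
  obtain ⟨M, hM, hS⟩ := h
  have h1 : ∀ a : Fin k, ∃ b : Fin k, (a, b) ∈ z i ∧
      M.Adj (e (Sum.inl (i, a, false))) (e (Sum.inl (i, b, true))) := by
    intro a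
    obtain ⟨w, hw, -⟩ := hM (hS (e (Sum.inl (i, a, false))))
    have h2 := (graph_adj.mp (M.adj_sub hw)).1
    unfold place at h2
    rw [decide_eq_true_eq] at h2
    rcases h2 with ⟨j, p, h3, h4⟩ | ⟨c, h3⟩
    · unfold slot at h3
      rw [Sym2.eq_iff] at h3
      rcases h3 with ⟨h5, h6⟩ | ⟨h5, h6⟩
      · have h7 := Sum.inl.inj (e.injective h5)
        simp only [Prod.mk.injEq, and_true] at h7
        obtain ⟨h8, h9⟩ := h7
        refine ⟨p.2, ?_, ?_⟩
        · rw [h8, h9]
          exact h4
        · rw [h8, ← h6, ← h8]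
          exact hw
      · have h7 := Sum.inl.inj (e.injective h5)
        simp only [Prod.mk.injEq] at h7
        exact absurd h7.2.2 (by simp)
    · unfold fixedE at h3
      rw [Sym2.eq_iff] at h3
      rcases h3 with ⟨h5, -⟩ | ⟨h5, -⟩ <;> simpa using e.injective h5
  choose f hf1 hf2 using h1
  have hinj : Function.Injective f := by
    intro a a' haa
    have h3 := (hf2 a).symm
    have h4 := (hf2 a').symm
    rw [← haa] at h4
    obtain ⟨w, -, hw⟩ := hM (hS (e (Sum.inl (i, f a, true))))
    have h5 := (hw _ h3).trans (hw _ h4).symm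
    have h6 := Sum.inl.inj (e.injective h5)
    simp only [Prod.mk.injEq, and_true, true_and] at h6
    exact h6
  exact ⟨Equiv.ofBijective f (Finite.injective_iff_bijective.mp hinj), fun a => hf1 a⟩

lemma hasPM_of_perm {z : Fin r → Set (Fin k × Fin k)} (σ : Fin r → Equiv.Perm (Fin k))
    (h : ∀ i a, (a, σ i a) ∈ z i) : HasPM (place e z) := by
  classical
  let g : (Fin r × Fin k × Bool) ⊕ (Fin q × Bool) → (Fin r × Fin k × Bool) ⊕ (Fin q × Bool) :=
    fun v => match v with
      | .inl (i, a, false) => .inl (i, σ i a, true)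
      | .inl (i, b, true) => .inl (i, (σ i).symm b, false)
      | .inr (c, b) => .inr (c, !b)
  have hg : ∀ v, g (g v) = v := by
    rintro (⟨i, a, _ | _⟩ | ⟨c, b⟩) <;> simp [g]
  have hslot : ∀ i a b, (a, b) ∈ z i →
      (graph (place e z)).Adj (e (.inl (i, a, false))) (e (.inl (i, b, true))) := by
    intro i a b hab
    rw [graph_adj]
    refine ⟨(place_slot e z i (a, b)).mpr hab, fun h => ?_⟩
    simpa using e.injective h
  have hfix : ∀ c, (graph (place e z)).Adj (e (.inr (c, false))) (e (.inr (c, true))) := by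
    intro c
    rw [graph_adj]
    refine ⟨?_, fun h => ?_⟩
    · unfold place
      rw [decide_eq_true_eq]
      exact Or.inr ⟨c, rfl⟩
    · simpa using e.injective h
  refine hasPM_of_invol (fun v => e (g (e.symm v))) (fun v => ?_) (fun v => ?_)
  · simp only [Equiv.symm_apply_apply, hg, Equiv.apply_symm_apply]
  · obtain ⟨u, rfl⟩ := e.surjective v
    simp only [Equiv.symm_apply_apply]
    rcases u with (⟨i, a, _ | _⟩ | ⟨c, _ | _⟩)
    · exact hslot i a (σ i a) (h i a)
    · have h1 := h i ((σ i).symm a)
      rw [Equiv.apply_symm_apply] at h1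
      exact (hslot i _ _ h1).symm
    · exact hfix c
    · exact (hfix c).symm

open Classical in
/-- the negated inputs that do not belong to block `i` -/
noncomputable def off (i : Fin r) : Sym2 V → Bool := fun s => decide (¬ ∃ p, s = slot e (i, p))

open Classical in
/-- the real function of the edges of block `i` -/
noncomputable def blockFun (i : Fin r) (y : Fin r → Set (Fin k × Fin k))
    (f : (Sym2 V → Bool) → (Sym2 V → Bool) → Bool) : Set (Fin k × Fin k) → ℝ := fun X =>
  if f (off e i) (place e (Function.update y i X)) = true then 1 else 0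

/-- leaves -/
def Leaves (k : ℕ) : Set (Set (Fin k × Fin k) → ℝ) :=
  {b | (∃ c, b = fun _ => c) ∨ ∃ (v : Fin k × Fin k) (c d : ℝ), c ≤ d ∧
      (∀ X, v ∈ X → b X = d) ∧ ∀ X, v ∉ X → b X = c}

lemma blockFun_const (i : Fin r) (y : Fin r → Set (Fin k × Fin k))
    (f : (Sym2 V → Bool) → (Sym2 V → Bool) → Bool)
    (h : ∀ X X', f (off e i) (place e (Function.update y i X)) =
      f (off e i) (place e (Function.update y i X'))) : blockFun e i y f ∈ Leaves k := by
  classical
  refine Or.inl ⟨if f (off e i) (place e (Function.update y i ∅)) = true then 1 else 0, ?_⟩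
  funext X
  unfold blockFun
  rw [h X ∅]

lemma update_other (y : Fin r → Set (Fin k × Fin k)) (i : Fin r) (X X' : Set (Fin k × Fin k)) :
    ∀ j, j ≠ i → Function.update y i X j = Function.update y i X' j := by
  intro j hj
  rw [Function.update_of_ne hj, Function.update_of_ne hj]

lemma prog (i : Fin r) (y : Fin r → Set (Fin k × Fin k)) {s : ℕ}
    {G : Set ((Sym2 V → Bool) → (Sym2 V → Bool) → Bool)} (hG : Circuit s G) :
    ∃ L, RProg (Leaves k) L ∧ L.length = s ∧ ∀ f ∈ G,
      blockFun e i y f ∈ Leaves k ∨ blockFun e i y f ∈ L := by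
  classical
  induction hG with
  | inputs =>
    refine ⟨[], RProg.nil, rfl, ?_⟩
    rintro f (⟨b, rfl⟩ | ⟨s, rfl⟩ | ⟨s, rfl⟩)
    · exact Or.inl (blockFun_const e i y _ fun _ _ => rfl)
    · by_cases hs : ∃ p, s = slot e (i, p)
      · obtain ⟨p, rfl⟩ := hs
        refine Or.inl (Or.inr ⟨p, 0, 1, zero_le_one, fun X hX => ?_, fun X hX => ?_⟩)
        · unfold blockFun
          rw [if_pos]
          rw [place_slot, Function.update_self]
          exact hX
        · unfold blockFun
          rw [if_neg]
          rw [place_slot, Function.update_self]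
          exact hX
      · refine Or.inl (blockFun_const e i y _ fun X X' => ?_)
        exact place_other e _ _ i (update_other y i X X') s hs
    · refine Or.inl (blockFun_const e i y _ fun X X' => ?_)
      by_cases hs : ∃ p, s = slot e (i, p)
      · have h1 : off e i s = false := by
          unfold off
          rw [decide_eq_false_iff_not, not_not]
          exact hs
        show (off e i s && _) = (off e i s && _)
        rw [h1, Bool.false_and, Bool.false_and]
      · show (off e i s && _) = (off e i s && _)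
        rw [place_other e _ _ i (update_other y i X X') s hs]
  | @and s G f g hG hf hg ih =>
    obtain ⟨L, h1, h2, h3⟩ := ih
    have h4 : ∀ j : Fin 2, (![blockFun e i y f, blockFun e i y g] j) ∈ Leaves k ∨
        (![blockFun e i y f, blockFun e i y g] j) ∈ L := by
      intro j
      fin_cases j
      · exact h3 f hf
      · exact h3 g hg
    have h5 := RProg.gate 2 le_rfl (fun z => min (z 0) (z 1))
      (fun a b hab => min_le_min (hab 0) (hab 1)) ![blockFun e i y f, blockFun e i y g] h1 h4
    have h6 : blockFun e i y (fun S x => f S x && g S x) =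
        fun x => min (![blockFun e i y f, blockFun e i y g] 0 x)
          (![blockFun e i y f, blockFun e i y g] 1 x) := by
      funext X
      simp only [Matrix.cons_val_zero, Matrix.cons_val_one]
      unfold blockFun
      by_cases c1 : f (off e i) (place e (Function.update y i X)) = true <;>
        by_cases c2 : g (off e i) (place e (Function.update y i X)) = true <;> simp [c1, c2]
    refine ⟨_, h5, by simp [h2], ?_⟩
    intro f' hf'
    rcases Set.mem_insert_iff.mp hf' with rfl | hf'
    · rw [h6]
      exact Or.inr List.mem_cons_self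
    · rcases h3 f' hf' with h7 | h7
      · exact Or.inl h7
      · exact Or.inr (List.mem_cons_of_mem _ h7)
  | @or s G f g hG hf hg ih =>
    obtain ⟨L, h1, h2, h3⟩ := ih
    have h4 : ∀ j : Fin 2, (![blockFun e i y f, blockFun e i y g] j) ∈ Leaves k ∨
        (![blockFun e i y f, blockFun e i y g] j) ∈ L := by
      intro j
      fin_cases j
      · exact h3 f hf
      · exact h3 g hg
    have h5 := RProg.gate 2 le_rfl (fun z => max (z 0) (z 1))
      (fun a b hab => max_le_max (hab 0) (hab 1)) ![blockFun e i y f, blockFun e i y g] h1 h4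
    have h6 : blockFun e i y (fun S x => f S x || g S x) =
        fun x => max (![blockFun e i y f, blockFun e i y g] 0 x)
          (![blockFun e i y f, blockFun e i y g] 1 x) := by
      funext X
      simp only [Matrix.cons_val_zero, Matrix.cons_val_one]
      unfold blockFun
      by_cases c1 : f (off e i) (place e (Function.update y i X)) = true <;>
        by_cases c2 : g (off e i) (place e (Function.update y i X)) = true <;> simp [c1, c2]
    refine ⟨_, h5, by simp [h2], ?_⟩
    intro f' hf'
    rcases Set.mem_insert_iff.mp hf' with rfl | hf'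
    · rw [h6]
      exact Or.inr List.mem_cons_self
    · rcases h3 f' hf' with h7 | h7
      · exact Or.inl h7
      · exact Or.inr (List.mem_cons_of_mem _ h7)

end

open Classical in
/-- The main inequality. -/
theorem pm_ineq {V : Type} {r k q w lam t : ℕ}
    (e : (Fin r × Fin k × Bool) ⊕ (Fin q × Bool) ≃ V) (hr : 0 < r) (hw : 1 ≤ w)
    (hk : k < 2 ^ lam) (hbig : 2 ^ 59 * (lam + 1) ^ 8 * w ^ 8 ≤ k)
    (R : Type) [Fintype R] [Nonempty R] (C : R → (Sym2 V → Bool) → (Sym2 V → Bool) → Bool)
    (hsize : ∀ ρ, HasSize (2 ^ w) (C ρ)) (hsound : ∀ ρ x, Accepts (C ρ) x → HasPM x)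
    {δ : ℝ} (hδ0 : 0 ≤ δ) (hδ : ∀ x, HasPM x → δ * Fintype.card R ≤
      ((univ.filter (fun ρ => AcceptsWith t (C ρ) x)).card : ℝ)) :
    δ * ((r : ℝ) - t) ≤ 1 / w * r := by
  obtain ⟨Ng, hNg, hNgne, sn, hsn, hA⟩ := Pool.Agent.W2helper58.match_avg (n := k) w lam hw hk hbig
  have hmono : ∀ ρ (S S' x : Sym2 V → Bool), (∀ i, S i = true → S' i = true) →
      C ρ S x = true → C ρ S' x = true := by
    intro ρ
    obtain ⟨s', -, G, hG, hf⟩ := hsize ρ
    exact circuit_mono hG _ hf
  refine block_avg hr (X := Equiv.Perm (Fin k))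
    (fun i ρ y => C ρ (off e i) (place e (fun j => (pgr (y j) : Set (Fin k × Fin k)))) = true)
    (fun ρ y => AcceptsWith t (C ρ) (place e (fun j => (pgr (y j) : Set (Fin k × Fin k)))))
    ?_ hδ0 ?_ ?_
  · rintro ρ y ⟨S, hS, hacc⟩
    let blk : Sym2 V → Fin r := fun s => if h : ∃ p, s = slot e p then (Classical.choose h).1
      else ⟨0, hr⟩
    refine ⟨S.image blk, Finset.card_image_le.trans hS, fun i hi => ?_⟩
    refine hmono ρ _ _ _ (fun s hs => ?_) hacc
    have hs' : s ∈ S := @of_decide_eq_true _ (_) hs
    unfold off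
    rw [decide_eq_true_eq]
    rintro ⟨p, hp⟩
    apply hi
    rw [Finset.mem_image]
    refine ⟨s, hs', ?_⟩
    have h1 : ∃ p, s = slot e p := ⟨_, hp⟩
    have h2 : slot e (i, p) = slot e (Classical.choose h1) := hp ▸ Classical.choose_spec h1
    have h3 := slot_inj e h2
    simp only [blk, dif_pos h1]
    rw [← h3]
  · intro y
    apply hδ
    exact hasPM_of_perm e y (fun i a => by
      rw [Finset.mem_coe, mem_pgr])
  · intro i ρ y
    obtain ⟨s', hs', G, hG, hf⟩ := hsize ρ
    obtain ⟨L, h1, h2, h3⟩ := prog e i (fun j => (pgr (y j) : Set (Fin k × Fin k))) hG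
    have hup : ∀ σ : Equiv.Perm (Fin k),
        (fun j => (pgr (Function.update y i σ j) : Set (Fin k × Fin k))) =
        Function.update (fun j => (pgr (y j) : Set (Fin k × Fin k))) i (pgr σ) := by
      intro σ
      funext j
      by_cases hj : j = i
      · subst hj
        rw [Function.update_self, Function.update_self]
      · rw [Function.update_of_ne hj, Function.update_of_ne hj]
    have hB := hA (Leaves k) (fun b hb => hb) L h1 (by rw [h2]; exact hs') _ (h3 _ hf) 1
    have hno : (univ.filter (fun ω : Ng => (1 : ℝ) ≤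
        blockFun e i (fun j => (pgr (y j) : Set (Fin k × Fin k))) (C ρ) (sn ω))) = ∅ := by
      rw [Finset.filter_eq_empty_iff]
      intro ω _ hω
      unfold blockFun at hω
      by_cases hc : C ρ (off e i) (place e (Function.update
        (fun j => (pgr (y j) : Set (Fin k × Fin k))) i (sn ω))) = true
      · have h4 := hsound ρ _ (hmono ρ _ (fun _ => true) _ (fun _ _ => rfl) hc)
        obtain ⟨σ, hσ⟩ := perm_of_hasPM e h4 i
        apply hsn ω σ
        intro p hp
        rw [mem_pgr] at hp
        have h5 := hσ p.1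
        rw [Function.update_self, Finset.mem_coe, hp] at h5
        exact h5
      · rw [if_neg hc] at hω
        linarith
    rw [hno] at hB
    simp only [Finset.card_empty, Nat.cast_zero, zero_div, zero_add] at hB
    have hX0 : (0 : ℝ) < Fintype.card (Equiv.Perm (Fin k)) := by exact_mod_cast Fintype.card_pos
    rw [div_le_iff₀ hX0] at hB
    refine le_trans (le_of_eq ?_) hB
    congr 1
    congr 1
    ext σ
    simp only [Finset.mem_filter, Finset.mem_univ, true_and]
    constructor
    · intro h
      unfold blockFun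
      rw [← hup σ, if_pos h]
    · intro h
      by_contra hcon
      unfold blockFun at h
      rw [← hup σ, if_neg hcon] at h
      linarith

end Pool.Agent.W2lead.PM
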