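import Pool.Agent.W2lead.CircDefs

set_option autoImplicit false

/-!
# Circuits with local sharing: Nechiporuk's method for circuits

The bound for the number of subfunctions of a circuit on a block `Y` of inputs.
-/

open Finset Classical

namespace Pool.Agent.W2lead.Circ

variable {n : ℕ}

namespace Circuit

/-- The bit on the wire `(j, i)`. -/
def wireVal (C : Circuit n) (x : Fin n → Bool) (j : Fin C.m) (i : Fin 2) : Bool :=
  match C.pred j i with
  | none => false
  | some u => C.val x u

theorem gateVal_eq (C : Circuit n) (x : Fin n → Bool) (j : Fin C.m) :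
    C.val x (Sum.inr j) = C.op j (C.wireVal x j 0) (C.wireVal x j 1) := by
  have h : ∀ i : Fin 2, C.wireVal x j i = (match C.pred j i with
      | none => false
      | some (Sum.inl a) => x a
      | some (Sum.inr k) => C.gateVal x k) := by
    intro i
    unfold wireVal val
    rcases C.pred j i with _ | (a | k) <;> rfl
  show C.gateVal x j = _
  rw [gateVal, h 0, h 1]
  congr 1
  · split <;> simp_all
  · split <;> simp_all

/-- The position of a vertex in the topological order. -/
def idx (C : Circuit n) : Fin n ⊕ Fin C.m → ℕ := Sum.elim (fun _ => 0) (fun j => j.val + 1)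

theorem idx_lt (C : Circuit n) {j : Fin C.m} {i : Fin 2} {u : Fin n ⊕ Fin C.m}
    (h : C.pred j i = some u) : C.idx u < C.idx (Sum.inr j) := by
  rcases u with a | k
  · simp [idx]
  · have := C.lt j i k h
    simp only [idx, Sum.elim_inr]
    have h2 : k.val < j.val := this
    omega

end Circuit

/-- The input equal to `y` on `Y` and to `r` outside `Y`. -/
def mix (Y : Finset (Fin n)) (y r : Fin n → Bool) : Fin n → Bool :=
  fun i => if i ∈ Y then y i else r i

section block

variable (C : Circuit n) (Y : Finset (Fin n))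

/-- The bit at `u` depends on the block `Y`. -/
def Live (u : Fin n ⊕ Fin C.m) : Prop :=
  ∃ r y y', C.val (mix Y y r) u ≠ C.val (mix Y y' r) u

/-- The wire `(j, i)` starts at a vertex which depends on `Y`. -/
def LiveWire (j : Fin C.m) (i : Fin 2) : Prop := ∃ u, C.pred j i = some u ∧ Live C Y u

/-- The key gates. -/
def Key (j : Fin C.m) : Prop :=
  (Live C Y (Sum.inr j) ∧ 2 ≤ C.fanout (Sum.inr j)) ∨ (LiveWire C Y j 0 ∧ LiveWire C Y j 1)

/-- Inputs in `Y` and key gates. -/
def Good : Fin n ⊕ Fin C.m → Prop := Sum.elim (fun a => a ∈ Y) (fun j => Key C Y j)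

/-- The bit at a vertex, `false` for `none`. -/
def oval (x : Fin n → Bool) : Option (Fin n ⊕ Fin C.m) → Bool
  | none => false
  | some u => C.val x u

theorem const_of_not_live {u : Fin n ⊕ Fin C.m} (h : ¬ Live C Y u) (r y y' : Fin n → Bool) :
    C.val (mix Y y r) u = C.val (mix Y y' r) u := by
  by_contra hne
  exact h ⟨r, y, y', hne⟩

theorem wire_const {j : Fin C.m} {i : Fin 2} (h : ¬ LiveWire C Y j i) (r y y' : Fin n → Bool) :
    C.wireVal (mix Y y r) j i = C.wireVal (mix Y y' r) j i := by
  unfold Circuit.wireVal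
  rcases hp : C.pred j i with _ | u
  · rfl
  · exact const_of_not_live C Y (fun hl => h ⟨u, hp, hl⟩) r y y'

theorem core_exists (N : ℕ) : ∀ u : Fin n ⊕ Fin C.m, C.idx u ≤ N →
    ∃ c : Option (Fin n ⊕ Fin C.m), (∀ v, c = some v → Good C Y v ∧ C.idx v ≤ C.idx u) ∧
      ∀ r, ∃ g : Bool → Bool, ∀ y, C.val (mix Y y r) u = g (oval C (mix Y y r) c) := by
  induction N using Nat.strong_induction_on with
  | _ N ih =>
  intro u hu
  by_cases hl : Live C Y u
  swap
  · refine ⟨none, by simp, fun r => ⟨fun _ => C.val (mix Y r r) u, fun y => ?_⟩⟩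
    exact const_of_not_live C Y hl r y r
  rcases u with a | j
  · have ha : a ∈ Y := by
      by_contra ha
      obtain ⟨r, y, y', h⟩ := hl
      simp [Circuit.val, mix, ha] at h
    exact ⟨some (Sum.inl a), by rintro v ⟨⟩; exact ⟨ha, le_rfl⟩, fun r => ⟨id, fun y => rfl⟩⟩
  by_cases hk : Key C Y j
  · exact ⟨some (Sum.inr j), by rintro v ⟨⟩; exact ⟨hk, le_rfl⟩, fun r => ⟨id, fun y => rfl⟩⟩
  have hN : 0 < N := by
    simp only [Circuit.idx, Sum.elim_inr] at hu; omega
  by_cases h0 : LiveWire C Y j 0
  · have h1 : ¬ LiveWire C Y j 1 := fun h1 => hk (Or.inr ⟨h0, h1⟩)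
    obtain ⟨u0, hp, hlu⟩ := h0
    have hlt := C.idx_lt hp
    obtain ⟨c, hc, hval⟩ := ih (N - 1) (by omega) u0 (by omega)
    refine ⟨c, fun v hv => ⟨(hc v hv).1, (hc v hv).2.trans hlt.le⟩, fun r => ?_⟩
    obtain ⟨g, hg⟩ := hval r
    refine ⟨fun z => C.op j (g z) (C.wireVal (mix Y r r) j 1), fun y => ?_⟩
    rw [C.gateVal_eq, wire_const C Y h1 r y r]
    congr 1
    rw [← hg y]
    simp [Circuit.wireVal, hp]
  by_cases h1 : LiveWire C Y j 1
  · obtain ⟨u1, hp, hlu⟩ := h1
    have hlt := C.idx_lt hp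
    obtain ⟨c, hc, hval⟩ := ih (N - 1) (by omega) u1 (by omega)
    refine ⟨c, fun v hv => ⟨(hc v hv).1, (hc v hv).2.trans hlt.le⟩, fun r => ?_⟩
    obtain ⟨g, hg⟩ := hval r
    refine ⟨fun z => C.op j (C.wireVal (mix Y r r) j 0) (g z), fun y => ?_⟩
    rw [C.gateVal_eq, wire_const C Y h0 r y r]
    congr 1
    rw [← hg y]
    simp [Circuit.wireVal, hp]
  exfalso
  obtain ⟨r, y, y', h⟩ := hl
  apply h
  rw [C.gateVal_eq, C.gateVal_eq, wire_const C Y h0 r y y', wire_const C Y h1 r y y']

theorem wire_exists (w : Fin C.m × Fin 2) :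
    ∃ c : Option (Fin n ⊕ Fin C.m), (∀ v, c = some v → Good C Y v ∧ C.idx v < C.idx (Sum.inr w.1)) ∧
      ∀ r, ∃ g : Bool → Bool, ∀ y, C.wireVal (mix Y y r) w.1 w.2 = g (oval C (mix Y y r) c) := by
  rcases hp : C.pred w.1 w.2 with _ | u
  · refine ⟨none, by simp, fun r => ⟨id, fun y => ?_⟩⟩
    simp [Circuit.wireVal, hp, oval]
  · obtain ⟨c, hc, hval⟩ := core_exists C Y (C.idx u) u le_rfl
    refine ⟨c, fun v hv => ⟨(hc v hv).1, (hc v hv).2.trans_lt (C.idx_lt hp)⟩, fun r => ?_⟩
    obtain ⟨g, hg⟩ := hval r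
    refine ⟨g, fun y => ?_⟩
    rw [← hg y]
    simp [Circuit.wireVal, hp]

/-- The number of subfunctions on `Y`. -/
noncomputable def subCount (f : (Fin n → Bool) → Bool) : ℕ :=
  #(Finset.univ.image fun r : Fin n → Bool => fun y : Fin n → Bool => f (mix Y y r))

/-- A code with `16 ^ (number of key gates) * 4` values determines the subfunction. -/
theorem subCount_le : subCount Y (fun x => C.val x C.out) ≤
    16 ^ #{j : Fin C.m | Key C Y j} * 4 := by
  choose cw hcw hval using wire_exists C Y
  choose sg hsg using hval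
  obtain ⟨co, hco, hvo⟩ := core_exists C Y _ C.out le_rfl
  choose so hso using hvo
  let code : (Fin n → Bool) → ({j : Fin C.m // Key C Y j} → (Fin 2 → Bool → Bool)) × (Bool → Bool) :=
    fun r => (fun j i => sg (j.1, i) r, so r)
  have hdet : ∀ r r', code r = code r' →
      (fun y : Fin n → Bool => C.val (mix Y y r) C.out) =
        fun y : Fin n → Bool => C.val (mix Y y r') C.out := by
    intro r r' h
    have h1 : ∀ j : Fin C.m, Key C Y j → ∀ i, sg (j, i) r = sg (j, i) r' := by
      intro j hj i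
      have := congrFun (congrFun (congrArg Prod.fst h) ⟨j, hj⟩) i
      exact this
    have h2 : so r = so r' := congrArg Prod.snd h
    funext y
    have key : ∀ N : ℕ, ∀ v, C.idx v ≤ N → Good C Y v →
        C.val (mix Y y r) v = C.val (mix Y y r') v := by
      intro N
      induction N using Nat.strong_induction_on with
      | _ N ih =>
      intro v hv hg
      rcases v with a | j
      · have ha : a ∈ Y := hg
        simp [Circuit.val, mix, ha]
      · have hk : Key C Y j := hg
        have hw : ∀ i : Fin 2, C.wireVal (mix Y y r) j i = C.wireVal (mix Y y r') j i := by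
          intro i
          have e1 := hsg (j, i) r y
          have e2 := hsg (j, i) r' y
          simp only at e1 e2
          rw [e1, e2, h1 j hk i]
          congr 1
          rcases hc : cw (j, i) with _ | v
          · rfl
          · obtain ⟨g1, g2⟩ := hcw (j, i) v hc
            exact ih (C.idx v) (lt_of_lt_of_le g2 hv) v le_rfl g1
        rw [C.gateVal_eq, C.gateVal_eq, hw 0, hw 1]
    rw [hso r y, hso r' y, h2]
    congr 1
    rcases hc : co with _ | v
    · rfl
    · exact key _ v le_rfl (hco v hc).1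
  unfold subCount
  have h3 : #(Finset.univ.image fun r : Fin n → Bool => fun y : Fin n → Bool =>
      C.val (mix Y y r) C.out) ≤ #(Finset.univ.image code) := by
    refine Finset.card_le_card_of_surjOn
      (fun z => if h : ∃ r, code r = z then
        (fun y : Fin n → Bool => C.val (mix Y y h.choose) C.out) else fun _ => false) ?_
    intro g hg
    simp only [Finset.coe_image, Finset.coe_univ, Set.image_univ, Set.mem_range] at hg ⊢
    obtain ⟨r, rfl⟩ := hg
    refine ⟨code r, ⟨r, rfl⟩, ?_⟩
    have hex : ∃ r', code r' = code r := ⟨r, rfl⟩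
    simp only [hex, dif_pos]
    exact hdet _ _ hex.choose_spec
  refine h3.trans ((Finset.card_le_univ _).trans (le_of_eq ?_))
  simp only [Fintype.card_prod, Fintype.card_fun, Fintype.card_bool, Fintype.card_fin,
    Fintype.card_subtype]
  norm_num

/-- The wires which leave inputs in `Y`. -/
noncomputable def inWires : ℕ := #{w : Fin C.m × Fin 2 | ∃ a ∈ Y, C.pred w.1 w.2 = some (Sum.inl a)}

/-- The wires which leave gates of fan-out at least two that depend on `Y`. -/
noncomputable def shWires : ℕ := #{w : Fin C.m × Fin 2 | ∃ k, C.pred w.1 w.2 = some (Sum.inr k) ∧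
  2 ≤ C.fanout (Sum.inr k) ∧ Live C Y (Sum.inr k)}

theorem live_input {a : Fin n} (h : Live C Y (Sum.inl a)) : a ∈ Y := by
  by_contra ha
  obtain ⟨r, y, y', h⟩ := h
  simp [Circuit.val, mix, ha] at h

theorem key_card : #{j : Fin C.m | Key C Y j} ≤ inWires C Y + shWires C Y := by
  set G : Finset (Fin C.m) := {j | Live C Y (Sum.inr j)} with hG
  set S : Finset (Fin C.m) := {j | Live C Y (Sum.inr j) ∧ 2 ≤ C.fanout (Sum.inr j)} with hS
  set NS : Finset (Fin C.m) := {j | Live C Y (Sum.inr j) ∧ ¬ 2 ≤ C.fanout (Sum.inr j)} with hNS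
  set B : Finset (Fin C.m) := {j | LiveWire C Y j 0 ∧ LiveWire C Y j 1} with hB
  set A : Finset (Fin C.m) := {j | LiveWire C Y j 0 ∨ LiveWire C Y j 1} with hA
  have hGS : #G = #S + #NS := by
    rw [hG, hS, hNS, ← Finset.filter_filter, ← Finset.filter_filter]
    exact (Finset.card_filter_add_card_filter_not _).symm
  have h1 : #{j : Fin C.m | Key C Y j} ≤ #S + #B := by
    refine le_trans (Finset.card_le_card ?_) (Finset.card_union_le S B)
    intro j hj
    have hj' : Key C Y j := (Finset.mem_filter.1 hj).2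
    rcases hj' with h | h
    · exact Finset.mem_union_left _ (Finset.mem_filter.2 ⟨Finset.mem_univ _, h⟩)
    · exact Finset.mem_union_right _ (Finset.mem_filter.2 ⟨Finset.mem_univ _, h⟩)
  have h2 : #{w : Fin C.m × Fin 2 | LiveWire C Y w.1 w.2} = #A + #B := by
    have e1 : #{w : Fin C.m × Fin 2 | LiveWire C Y w.1 w.2} =
        ∑ j : Fin C.m, ∑ i : Fin 2, if LiveWire C Y j i then 1 else 0 := by
      rw [Finset.card_filter, ← Finset.univ_product_univ, Finset.sum_product]
    have e2 : #A + #B = ∑ j : Fin C.m, ((if LiveWire C Y j 0 ∨ LiveWire C Y j 1 then 1 else 0) +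
        if LiveWire C Y j 0 ∧ LiveWire C Y j 1 then 1 else 0) := by
      rw [Finset.sum_add_distrib, hA, hB, Finset.card_filter, Finset.card_filter]
    rw [e1, e2]
    refine Finset.sum_congr rfl fun j _ => ?_
    rw [Fin.sum_univ_two]
    by_cases a : LiveWire C Y j 0 <;> by_cases b : LiveWire C Y j 1 <;> simp [a, b]
  have h3 : #G ≤ #A := by
    refine Finset.card_le_card ?_
    intro j hj
    simp only [hG, hA, Finset.mem_filter, Finset.mem_univ, true_and] at hj ⊢
    by_contra hcon
    push Not at hcon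
    obtain ⟨r, y, y', h⟩ := hj
    apply h
    rw [C.gateVal_eq, C.gateVal_eq, wire_const C Y hcon.1 r y y', wire_const C Y hcon.2 r y y']
  have h4 : #{w : Fin C.m × Fin 2 | LiveWire C Y w.1 w.2} ≤ inWires C Y + shWires C Y + #NS := by
    have hsub : ({w : Fin C.m × Fin 2 | LiveWire C Y w.1 w.2} : Finset (Fin C.m × Fin 2)) ⊆
        (({w : Fin C.m × Fin 2 | ∃ a ∈ Y, C.pred w.1 w.2 = some (Sum.inl a)} :
            Finset (Fin C.m × Fin 2)) ∪
          ({w : Fin C.m × Fin 2 | ∃ k, C.pred w.1 w.2 = some (Sum.inr k) ∧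
            2 ≤ C.fanout (Sum.inr k) ∧ Live C Y (Sum.inr k)} : Finset (Fin C.m × Fin 2))) ∪
          ({w : Fin C.m × Fin 2 | ∃ k ∈ NS, C.pred w.1 w.2 = some (Sum.inr k)} :
            Finset (Fin C.m × Fin 2)) := by
      intro w hw
      have hw' : LiveWire C Y w.1 w.2 := (Finset.mem_filter.1 hw).2
      simp only [Finset.mem_filter, Finset.mem_univ, true_and, Finset.mem_union]
      obtain ⟨u, hu, hl⟩ := hw'
      rcases u with a | k
      · exact Or.inl (Or.inl ⟨a, live_input C Y hl, hu⟩)
      · by_cases hf : 2 ≤ C.fanout (Sum.inr k)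
        · exact Or.inl (Or.inr ⟨k, hu, hf, hl⟩)
        · refine Or.inr ⟨k, ?_, hu⟩
          exact Finset.mem_filter.2 ⟨Finset.mem_univ _, hl, hf⟩
    refine (Finset.card_le_card hsub).trans ((Finset.card_union_le _ _).trans ?_)
    refine Nat.add_le_add (Finset.card_union_le _ _) ?_
    have hb : ({w : Fin C.m × Fin 2 | ∃ k ∈ NS, C.pred w.1 w.2 = some (Sum.inr k)} :
          Finset (Fin C.m × Fin 2)) = NS.biUnion fun k =>
        ({w : Fin C.m × Fin 2 | C.pred w.1 w.2 = some (Sum.inr k)} : Finset (Fin C.m × Fin 2)) := by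
      ext w
      simp
    rw [hb]
    refine Finset.card_biUnion_le.trans ?_
    calc ∑ k ∈ NS, #{w : Fin C.m × Fin 2 | C.pred w.1 w.2 = some (Sum.inr k)} ≤ ∑ k ∈ NS, 1 := by
          refine Finset.sum_le_sum fun k hk => ?_
          simp only [hNS, Finset.mem_filter, Finset.mem_univ, true_and] at hk
          have h5 : C.fanout (Sum.inr k) ≤ 1 := by omega
          exact h5
      _ = #NS := by simp
  omega

end block

end Pool.Agent.W2lead.Circ
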