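import Mathlib

set_option autoImplicit false

/-!
# Boolean circuits of fan-in two, fan-out, dependence on the inputs, and element distinctness
-/

open Finset Classical

namespace Pool.Agent.W2lead.Circ

/-- A Boolean circuit with `n` inputs and `m` gates of fan-in at most two, numbered in a topological order.
The gate `j` has the incoming wires `(j, 0)` and `(j, 1)`: `pred j i` is the vertex (an input `Sum.inl a` or a
gate `Sum.inr k` with `k < j`) at the start of the wire `(j, i)`, or `none` if this wire is missing. The gate `j`
applies the arbitrary Boolean function `op j` to the two incoming bits (a missing wire carries `false`). -/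
structure Circuit (n : ℕ) where
  /-- the number of gates -/
  m : ℕ
  /-- the Boolean functions of the gates -/
  op : Fin m → Bool → Bool → Bool
  /-- the starting points of the wires -/
  pred : Fin m → Fin 2 → Option (Fin n ⊕ Fin m)
  /-- a wire goes from a vertex to a later gate -/
  lt : ∀ j i k, pred j i = some (Sum.inr k) → k < j
  /-- the output vertex -/
  out : Fin n ⊕ Fin m

variable {n : ℕ}

namespace Circuit

/-- The bit computed by the gate `j` on the input `x`. -/
def gateVal (C : Circuit n) (x : Fin n → Bool) (j : Fin C.m) : Bool :=
  C.op j
    (match _h : C.pred j 0 with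
      | none => false
      | some (Sum.inl a) => x a
      | some (Sum.inr k) => C.gateVal x k)
    (match _h : C.pred j 1 with
      | none => false
      | some (Sum.inl a) => x a
      | some (Sum.inr k) => C.gateVal x k)
termination_by j.val
decreasing_by
  · exact C.lt j 0 k _h
  · exact C.lt j 1 k _h

/-- The bit computed at a vertex. -/
def val (C : Circuit n) (x : Fin n → Bool) (u : Fin n ⊕ Fin C.m) : Bool :=
  Sum.elim x (C.gateVal x) u

/-- The circuit computes `f`. -/
def Computes (C : Circuit n) (f : (Fin n → Bool) → Bool) : Prop :=
  ∀ x, C.val x C.out = f x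

/-- The number of wires which leave the vertex `u`. -/
noncomputable def fanout (C : Circuit n) (u : Fin n ⊕ Fin C.m) : ℕ :=
  #{w : Fin C.m × Fin 2 | C.pred w.1 w.2 = some u}

/-- The bit at the vertex `u` depends on the input `i`. -/
def DependsOn (C : Circuit n) (u : Fin n ⊕ Fin C.m) (i : Fin n) : Prop :=
  ∃ x : Fin n → Bool, C.val (Function.update x i true) u ≠ C.val (Function.update x i false) u

/-- The number of inputs on which the bit at the vertex `u` depends. -/
noncomputable def width (C : Circuit n) (u : Fin n ⊕ Fin C.m) : ℕ :=
  #{i : Fin n | C.DependsOn u i}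

/-- The number of wires which leave gates that have fan-out at least two and depend on more than `s`
inputs. -/
noncomputable def wideWires (C : Circuit n) (s : ℕ) : ℕ :=
  #{w : Fin C.m × Fin 2 | ∃ k : Fin C.m, C.pred w.1 w.2 = some (Sum.inr k) ∧
    2 ≤ C.fanout (Sum.inr k) ∧ s < C.width (Sum.inr k)}

/-- The number of vertices. -/
def size (C : Circuit n) : ℕ := n + C.m

end Circuit

/-- The `i`-th bit of `x`, `false` for `i ≥ n`. -/
def bit (x : Fin n → Bool) (i : ℕ) : Bool := if h : i < n then x ⟨i, h⟩ else false

/-- Element distinctness for words of length `b`: the first `t` consecutive words of length `b` in `x`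
are pairwise different. -/
noncomputable def distinctWords (b t : ℕ) (x : Fin n → Bool) : Bool :=
  decide (∀ q < t, ∀ q' < t, q ≠ q' → ∃ r < b, bit x (q * b + r) ≠ bit x (q' * b + r))

end Pool.Agent.W2lead.Circ
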