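import Pool.Agent.W2lead.Circ

set_option autoImplicit false

/-!
# Circuits with local sharing: summation over the blocks, and element distinctness
-/

open Finset Classical

namespace Pool.Agent.W2lead.Circ

variable {n : ℕ}

theorem val_update_of_not_dependsOn (C : Circuit n) {u : Fin n ⊕ Fin C.m} {i : Fin n}
    (h : ¬ C.DependsOn u i) (x : Fin n → Bool) (c : Bool) :
    C.val (Function.update x i c) u = C.val x u := by
  have h1 : C.val (Function.update x i true) u = C.val (Function.update x i false) u := by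
    by_contra hne
    exact h ⟨x, hne⟩
  have h2 : ∀ c, C.val (Function.update x i c) u = C.val (Function.update x i true) u := by
    intro c
    cases c
    · exact h1.symm
    · rfl
  rw [h2 c, ← h2 (x i), Function.update_eq_self]

theorem val_mix_of_not_dependsOn (C : Circuit n) {u : Fin n ⊕ Fin C.m} (y r : Fin n → Bool)
    (T : Finset (Fin n)) (h : ∀ i ∈ T, ¬ C.DependsOn u i) : C.val (mix T y r) u = C.val r u := by
  induction T using Finset.induction_on with
  | empty =>
    congr 1
  | insert i T hi ih =>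
    have h1 : mix (insert i T) y r = Function.update (mix T y r) i (y i) := by
      funext a
      by_cases ha : a = i
      · subst ha; simp [mix]
      · simp [mix, ha]
    rw [h1, val_update_of_not_dependsOn C (h i (Finset.mem_insert_self i T))]
    exact ih fun a ha => h a (Finset.mem_insert_of_mem ha)

theorem exists_dependsOn (C : Circuit n) (Y : Finset (Fin n)) {u : Fin n ⊕ Fin C.m}
    (h : Live C Y u) : ∃ i ∈ Y, C.DependsOn u i := by
  by_contra hcon
  push Not at hcon
  obtain ⟨r, y, y', h⟩ := h
  apply h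
  rw [val_mix_of_not_dependsOn C y r Y hcon, val_mix_of_not_dependsOn C y' r Y hcon]

/-- The number of blocks on which a vertex depends is at most the number of inputs on which it
depends. -/
theorem live_blocks_le (C : Circuit n) (blk : Fin n → ℕ) (t : ℕ) (u : Fin n ⊕ Fin C.m) :
    #{q ∈ range t | Live C ({i | blk i = q} : Finset (Fin n)) u} ≤ C.width u := by
  have h : ∀ q ∈ ({q ∈ range t | Live C ({i | blk i = q} : Finset (Fin n)) u} : Finset ℕ),
      ∃ i : Fin n, blk i = q ∧ C.DependsOn u i := by
    intro q hq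
    obtain ⟨i, hi, hd⟩ := exists_dependsOn C _ (Finset.mem_filter.1 hq).2
    exact ⟨i, (Finset.mem_filter.1 hi).2, hd⟩
  have h2 : ({q ∈ range t | Live C ({i | blk i = q} : Finset (Fin n)) u} : Finset ℕ) ⊆
      Finset.image blk ({i : Fin n | C.DependsOn u i} : Finset (Fin n)) := by
    intro q hq
    obtain ⟨i, hi, hd⟩ := h q hq
    exact Finset.mem_image.2 ⟨i, Finset.mem_filter.2 ⟨Finset.mem_univ _, hd⟩, hi⟩
  exact (Finset.card_le_card h2).trans Finset.card_image_le

theorem sum_wires (C : Circuit n) (blk : Fin n → ℕ) (t s : ℕ) (hs : 1 ≤ s) :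
    ∑ q ∈ range t, (inWires C ({i | blk i = q} : Finset (Fin n)) +
      shWires C ({i | blk i = q} : Finset (Fin n))) ≤ 2 * s * C.m + t * C.wideWires s := by
  have h1 : ∀ q, inWires C ({i | blk i = q} : Finset (Fin n)) +
      shWires C ({i | blk i = q} : Finset (Fin n)) =
      ∑ w : Fin C.m × Fin 2, ((if ∃ a ∈ ({i | blk i = q} : Finset (Fin n)),
          C.pred w.1 w.2 = some (Sum.inl a) then 1 else 0) +
        if ∃ k, C.pred w.1 w.2 = some (Sum.inr k) ∧ 2 ≤ C.fanout (Sum.inr k) ∧
          Live C ({i | blk i = q} : Finset (Fin n)) (Sum.inr k) then 1 else 0) := by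
    intro q
    rw [Finset.sum_add_distrib, inWires, shWires, Finset.card_filter, Finset.card_filter]
  simp only [h1]
  rw [Finset.sum_comm]
  have h2 : ∀ w : Fin C.m × Fin 2, ∑ q ∈ range t,
      ((if ∃ a ∈ ({i | blk i = q} : Finset (Fin n)), C.pred w.1 w.2 = some (Sum.inl a) then 1 else 0) +
        if ∃ k, C.pred w.1 w.2 = some (Sum.inr k) ∧ 2 ≤ C.fanout (Sum.inr k) ∧
          Live C ({i | blk i = q} : Finset (Fin n)) (Sum.inr k) then 1 else 0) ≤
      s + t * (if ∃ k : Fin C.m, C.pred w.1 w.2 = some (Sum.inr k) ∧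
        2 ≤ C.fanout (Sum.inr k) ∧ s < C.width (Sum.inr k) then 1 else 0) := by
    intro w
    rcases hp : C.pred w.1 w.2 with _ | (a | k)
    · simp
    · have e1 : ∀ q ∈ range t, ((if ∃ a' ∈ ({i | blk i = q} : Finset (Fin n)),
            some (Sum.inl a) = (some (Sum.inl a') : Option (Fin n ⊕ Fin C.m)) then 1 else 0) +
          if ∃ k, some (Sum.inl a) = (some (Sum.inr k) : Option (Fin n ⊕ Fin C.m)) ∧
            2 ≤ C.fanout (Sum.inr k) ∧
            Live C ({i | blk i = q} : Finset (Fin n)) (Sum.inr k) then 1 else 0) =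
          if q = blk a then 1 else 0 := by
        intro q _
        by_cases hq : q = blk a
        · subst hq; simp
        · have hq' : ¬ blk a = q := fun h => hq h.symm
          simp [hq, hq']
      rw [Finset.sum_congr rfl e1, Finset.sum_ite_eq']
      split_ifs <;> omega
    · by_cases hf : 2 ≤ C.fanout (Sum.inr k)
      · have e1 : ∀ q ∈ range t, ((if ∃ a' ∈ ({i | blk i = q} : Finset (Fin n)),
              some (Sum.inr k) = (some (Sum.inl a') : Option (Fin n ⊕ Fin C.m)) then 1 else 0) +
            if ∃ k', some (Sum.inr k) = (some (Sum.inr k') : Option (Fin n ⊕ Fin C.m)) ∧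
              2 ≤ C.fanout (Sum.inr k') ∧
              Live C ({i | blk i = q} : Finset (Fin n)) (Sum.inr k') then 1 else 0) =
            if Live C ({i | blk i = q} : Finset (Fin n)) (Sum.inr k) then 1 else 0 := by
          intro q _
          by_cases hq : Live C ({i | blk i = q} : Finset (Fin n)) (Sum.inr k)
          · simp [hq, hf]
          · simp [hq]
        rw [Finset.sum_congr rfl e1, ← Finset.card_filter]
        by_cases hw : s < C.width (Sum.inr k)
        · have h3 : #{q ∈ range t | Live C ({i | blk i = q} : Finset (Fin n)) (Sum.inr k)} ≤ t :=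
            (Finset.card_filter_le _ _).trans (by simp)
          simp [hf, hw]
          omega
        · have h3 := live_blocks_le C blk t (Sum.inr k)
          simp [hw]
          omega
      · have e1 : ∀ q ∈ range t, ((if ∃ a' ∈ ({i | blk i = q} : Finset (Fin n)),
              some (Sum.inr k) = (some (Sum.inl a') : Option (Fin n ⊕ Fin C.m)) then 1 else 0) +
            if ∃ k', some (Sum.inr k) = (some (Sum.inr k') : Option (Fin n ⊕ Fin C.m)) ∧
              2 ≤ C.fanout (Sum.inr k') ∧
              Live C ({i | blk i = q} : Finset (Fin n)) (Sum.inr k') then 1 else 0) = 0 := by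
          intro q _
          simp [hf]
        rw [Finset.sum_congr rfl e1]
        simp
  refine (Finset.sum_le_sum fun w _ => h2 w).trans ?_
  rw [Finset.sum_add_distrib, ← Finset.mul_sum, ← Finset.card_filter]
  refine Nat.add_le_add ?_ le_rfl
  simp
  nlinarith

/-- The bound for the product of the numbers of subfunctions. -/
theorem prod_subCount_le (C : Circuit n) (blk : Fin n → ℕ) (t s : ℕ) (hs : 1 ≤ s) :
    ∏ q ∈ range t, subCount ({i | blk i = q} : Finset (Fin n)) (fun x => C.val x C.out) ≤
      2 ^ (2 * t + 4 * (2 * s * C.m + t * C.wideWires s)) := by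
  have h1 : ∀ q ∈ range t, subCount ({i | blk i = q} : Finset (Fin n)) (fun x => C.val x C.out) ≤
      2 ^ (4 * (inWires C ({i | blk i = q} : Finset (Fin n)) +
        shWires C ({i | blk i = q} : Finset (Fin n))) + 2) := by
    intro q _
    refine (subCount_le C _).trans ?_
    have e : 2 ^ (4 * (inWires C ({i | blk i = q} : Finset (Fin n)) +
        shWires C ({i | blk i = q} : Finset (Fin n))) + 2) = 16 ^ (inWires C ({i | blk i = q} : Finset (Fin n)) +
        shWires C ({i | blk i = q} : Finset (Fin n))) * 4 := by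
      rw [pow_add, pow_mul]; norm_num
    rw [e]
    exact Nat.mul_le_mul_right _ (Nat.pow_le_pow_right (by norm_num) (key_card C _))
  refine (Finset.prod_le_prod' h1).trans ?_
  rw [Finset.prod_pow_eq_pow_sum]
  refine Nat.pow_le_pow_right (by norm_num) ?_
  rw [Finset.sum_add_distrib, ← Finset.mul_sum]
  have := sum_wires C blk t s hs
  simp only [Finset.sum_const, Finset.card_range, smul_eq_mul]
  nlinarith

/-! ### Element distinctness -/

theorem subCount_distinct {b t q : ℕ} (hb : 0 < b) (hn : t * b ≤ n) (hq : q < t) :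
    (2 ^ b).choose (t - 1) ≤
      subCount ({i : Fin n | i.val / b = q} : Finset (Fin n)) (distinctWords b t) := by
  set Y : Finset (Fin n) := {i : Fin n | i.val / b = q} with hY
  have hcard : Fintype.card {q' : Fin t // q'.val ≠ q} = t - 1 := by
    rw [Fintype.card_subtype]
    have : ({x : Fin t | x.val ≠ q} : Finset (Fin t)) = Finset.univ.erase ⟨q, hq⟩ := by
      ext x
      simp [Fin.ext_iff]
    rw [this, Finset.card_erase_of_mem (Finset.mem_univ _)]
    simp
  have henum : ∀ A : Finset (Fin b → Bool), #A = t - 1 →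
      ∃ e : {q' : Fin t // q'.val ≠ q} → (Fin b → Bool), Function.Injective e ∧
        ∀ z, z ∈ A ↔ ∃ a, e a = z := by
    intro A hA
    have : Fintype.card {q' : Fin t // q'.val ≠ q} = Fintype.card A := by
      rw [hcard, Fintype.card_coe, hA]
    obtain ⟨e⟩ := Fintype.card_eq.1 this
    refine ⟨fun a => (e a).1, fun a a' h => e.injective (Subtype.ext h), fun z => ⟨fun hz => ?_, ?_⟩⟩
    · exact ⟨e.symm ⟨z, hz⟩, by simp⟩
    · rintro ⟨a, rfl⟩
      exact (e a).2
  choose! e he using henum
  let rho : Finset (Fin b → Bool) → Fin n → Bool := fun A i =>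
    if h : ∃ h : i.val / b < t, i.val / b ≠ q then
      e A ⟨⟨i.val / b, h.1⟩, h.2⟩ ⟨i.val % b, Nat.mod_lt _ hb⟩ else false
  let yz : (Fin b → Bool) → Fin n → Bool := fun z i => z ⟨i.val % b, Nat.mod_lt _ hb⟩
  have hlt : ∀ q' < t, ∀ r < b, q' * b + r < n := by
    intro q' hq' r hr
    calc q' * b + r < q' * b + b := by omega
      _ = (q' + 1) * b := by ring
      _ ≤ t * b := Nat.mul_le_mul_right _ (by omega)
      _ ≤ n := hn
  have hdiv : ∀ q' r, r < b → (q' * b + r) / b = q' := by
    intro q' r hr
    rw [mul_comm, Nat.mul_add_div hb, Nat.div_eq_of_lt hr, add_zero]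
  have hmod : ∀ q' r, r < b → (q' * b + r) % b = r := by
    intro q' r hr
    rw [mul_comm, Nat.mul_add_mod, Nat.mod_eq_of_lt hr]
  have hbitq : ∀ A z, ∀ r (hr : r < b), bit (mix Y (yz z) (rho A)) (q * b + r) = z ⟨r, hr⟩ := by
    intro A z r hr
    have h1 := hlt q hq r hr
    simp only [bit, h1, dif_pos, mix, hY, Finset.mem_filter, Finset.mem_univ, true_and,
      hdiv q r hr, if_true, yz, hmod q r hr]
  have hbito : ∀ A z (a : {q' : Fin t // q'.val ≠ q}), ∀ r (hr : r < b),
      bit (mix Y (yz z) (rho A)) (a.1.val * b + r) = e A a ⟨r, hr⟩ := by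
    intro A z a r hr
    have h1 := hlt a.1.val a.1.isLt r hr
    have h2 : ∃ _ : a.1.val < t, a.1.val ≠ q := ⟨a.1.isLt, a.2⟩
    simp only [bit, h1, dif_pos, mix, hY, Finset.mem_filter, Finset.mem_univ, true_and,
      hdiv _ r hr, a.2, if_false, rho]
    rw [dif_pos h2]
    congr 1
    exact Fin.ext (hmod _ r hr)
  have hval : ∀ A, #A = t - 1 → ∀ z,
      (distinctWords b t (mix Y (yz z) (rho A)) = true ↔ z ∉ A) := by
    intro A hA z
    obtain ⟨hinj, hmem⟩ := he A hA
    rw [distinctWords, decide_eq_true_iff]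
    constructor
    · intro h hz
      obtain ⟨a, rfl⟩ := (hmem z).1 hz
      obtain ⟨r, hr, hne⟩ := h q hq a.1.val a.1.isLt (fun h => a.2 h.symm)
      apply hne
      rw [hbitq A _ r hr, hbito A _ a r hr]
    · intro hz q₁ h₁ q₂ h₂ hne
      by_contra hcon
      push Not at hcon
      by_cases e₁ : q₁ = q
      · subst e₁
        have h2' : q₂ ≠ q₁ := fun h => hne h.symm
        apply hz
        refine (hmem z).2 ⟨⟨⟨q₂, h₂⟩, h2'⟩, ?_⟩
        funext r
        have := hcon r.val r.isLt
        rw [hbitq A z r.val r.isLt, hbito A z ⟨⟨q₂, h₂⟩, h2'⟩ r.val r.isLt] at this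
        exact this.symm
      · by_cases e₂ : q₂ = q
        · subst e₂
          apply hz
          refine (hmem z).2 ⟨⟨⟨q₁, h₁⟩, e₁⟩, ?_⟩
          funext r
          have := hcon r.val r.isLt
          rw [hbitq A z r.val r.isLt, hbito A z ⟨⟨q₁, h₁⟩, e₁⟩ r.val r.isLt] at this
          exact this
        · have h3 : e A ⟨⟨q₁, h₁⟩, e₁⟩ = e A ⟨⟨q₂, h₂⟩, e₂⟩ := by
            funext r
            have := hcon r.val r.isLt
            rw [hbito A z ⟨⟨q₁, h₁⟩, e₁⟩ r.val r.isLt, hbito A z ⟨⟨q₂, h₂⟩, e₂⟩ r.val r.isLt] at this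
            exact this
          have h4 := hinj h3
          simp only [Subtype.mk.injEq, Fin.mk.injEq] at h4
          exact hne h4
  have hc : #(Finset.powersetCard (t - 1) (Finset.univ : Finset (Fin b → Bool))) =
      (2 ^ b).choose (t - 1) := by
    rw [Finset.card_powersetCard]
    simp
  rw [← hc, subCount]
  refine Finset.card_le_card_of_injOn
    (fun A => fun y : Fin n → Bool => distinctWords b t (mix Y y (rho A))) ?_ ?_
  · intro A _
    exact Finset.mem_coe.2 (Finset.mem_image.2 ⟨rho A, Finset.mem_univ _, rfl⟩)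
  · intro A hA A' hA' h
    have hA1 : #A = t - 1 := (Finset.mem_powersetCard.1 (Finset.mem_coe.1 hA)).2
    have hA2 : #A' = t - 1 := (Finset.mem_powersetCard.1 (Finset.mem_coe.1 hA')).2
    ext z
    have h1 := hval A hA1 z
    have h2 := hval A' hA2 z
    have h3 := congrFun h (yz z)
    simp only at h3
    rw [h3] at h1
    constructor
    · intro hz
      by_contra hz'
      exact (h1.1 (h2.2 hz')) hz
    · intro hz
      by_contra hz'
      exact (h2.1 (h1.2 hz')) hz

theorem choose_ge {t M : ℕ} (ht : 2 ≤ t) (hM : t ^ 2 ≤ M) : t ^ (t - 1) ≤ M.choose (t - 1) := by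
  have h1 : (M + 1 - (t - 1)) ^ (t - 1) ≤ (t - 1).factorial * M.choose (t - 1) := by
    have := Nat.pow_sub_le_descFactorial M (t - 1)
    rw [Nat.descFactorial_eq_factorial_mul_choose] at this
    exact this
  have h2 : (t - 1).factorial ≤ (t - 1) ^ (t - 1) := Nat.factorial_le_pow _
  have h3 : t * (t - 1) ≤ M + 1 - (t - 1) := by
    obtain ⟨a, rfl⟩ : ∃ a, t = a + 2 := ⟨t - 2, by omega⟩
    simp only [show a + 2 - 1 = a + 1 from rfl]
    have : (a + 2) * (a + 1) + (a + 1) ≤ M + 1 := by nlinarith
    omega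
  have h4 : (t * (t - 1)) ^ (t - 1) ≤ (t - 1) ^ (t - 1) * M.choose (t - 1) :=
    (Nat.pow_le_pow_left h3 _).trans (h1.trans (Nat.mul_le_mul_right _ h2))
  rw [mul_pow, mul_comm] at h4
  exact Nat.le_of_mul_le_mul_left h4 (Nat.pow_pos (by omega))

end Pool.Agent.W2lead.Circ
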