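import Mathlib

/-!
# Definitions for the depth lower bound of `MP_807b32_lc`

Circuits in negation normal form, with a record of which negated inputs are used, and the problem
whether a value can be derived at the top of a pyramid.
-/

namespace Pool.Agent.W2lead.Depth

/-- Circuits in negation normal form with the inputs `I`: gates are AND and OR gates of fan-in two,
negations only occur at the inputs. (As only the depth is counted, circuits and formulas are the
same.) -/
inductive NNF (I : Type) : Type
  | const (b : Bool)
  | pos (i : I)
  | neg (i : I)
  | and (f g : NNF I)
  | or (f g : NNF I)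

/-- the depth: the largest number of AND and OR gates on a path -/
def NNF.depth {I : Type} : NNF I → ℕ
  | .const _ => 0
  | .pos _ => 0
  | .neg _ => 0
  | .and f g => max f.depth g.depth + 1
  | .or f g => max f.depth g.depth + 1

/-- The value on the input `x` when only the negated inputs in the set `S` may be used, that is, when
each negated input outside `S` is replaced by the constant false. -/
def NNF.eval {I : Type} (S : I → Bool) (x : I → Bool) : NNF I → Bool
  | .const b => b
  | .pos i => x i
  | .neg i => S i && !(x i)
  | .and f g => f.eval S x && g.eval S x
  | .or f g => f.eval S x || g.eval S x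

/-- The circuit accepts the input `x`. -/
def NNF.Accepts {I : Type} (φ : NNF I) (x : I → Bool) : Prop := φ.eval (fun _ => true) x = true

open Classical in
/-- The circuit accepts the input `x` by means of at most `t` negated inputs. -/
def NNF.AcceptsWith {I : Type} (φ : NNF I) (t : ℕ) (x : I → Bool) : Prop :=
  ∃ S : Finset I, S.card ≤ t ∧ φ.eval (fun i => decide (i ∈ S)) x = true

/-- `MonCircuit s G`: some monotone circuit with `s` gates (AND and OR gates of fan-in two, the
results of which may be used any number of times) computes all the functions in the set `G`. -/
inductive MonCircuit {I : Type} : ℕ → Set ((I → Bool) → Bool) → Prop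
  | inputs : MonCircuit 0 {f | (∃ b, f = fun _ => b) ∨ ∃ i, f = fun x => x i}
  | and {s : ℕ} {G : Set ((I → Bool) → Bool)} {f g : (I → Bool) → Bool} (hG : MonCircuit s G)
      (hf : f ∈ G) (hg : g ∈ G) : MonCircuit (s + 1) (insert (fun x => f x && g x) G)
  | or {s : ℕ} {G : Set ((I → Bool) → Bool)} {f g : (I → Bool) → Bool} (hG : MonCircuit s G)
      (hf : f ∈ G) (hg : g ∈ G) : MonCircuit (s + 1) (insert (fun x => f x || g x) G)

/-- The input bits of the pyramid problem of height `h` over the values `0, ..., q - 1`:
`leaf j c` tells whether the value `c` may be put on the vertex `j` of the bottom row `0`;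
`rule k j a b c` tells whether, if the vertices `j` and `j + 1` of the row `k` have obtained the
values `a` and `b`, the value `c` may be put on the vertex `j` of the row `k + 1`;
`goal c` tells whether `c` is an accepting value. -/
inductive Var (h q : ℕ) : Type
  | leaf (j : Fin (h + 1)) (c : Fin q)
  | rule (k j : Fin h) (a b c : Fin q)
  | goal (c : Fin q)

/-- `Derives x k j c`: the value `c` can be put on the vertex `j` of row `k` with the rules `x`. -/
def Derives {h q : ℕ} (x : Var h q → Bool) : ℕ → ℕ → Fin q → Prop
  | 0, j, c => ∃ hj : j < h + 1, x (.leaf ⟨j, hj⟩ c) = true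
  | k + 1, j, c => ∃ (hk : k < h) (hj : j < h) (a b : Fin q),
      x (.rule ⟨k, hk⟩ ⟨j, hj⟩ a b c) = true ∧ Derives x k j a ∧ Derives x k (j + 1) b

/-- An accepting value can be put on the top of the pyramid. -/
def Top {h q : ℕ} (x : Var h q → Bool) : Prop := ∃ c, x (.goal c) = true ∧ Derives x h 0 c

/-- the number of values used in the pyramid of height `h` -/
def vals (h : ℕ) : ℕ := 4 * (h + 1) ^ 2

/-- the input bits for `r` pyramids of height `h` -/
abbrev Bits (r h : ℕ) : Type := Fin r × Var h (vals h)

/-- In each of the `r` pyramids an accepting value can be put on the top. -/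
def AllTops (r h : ℕ) (x : Bits r h → Bool) : Prop := ∀ i, Top (fun v => x (i, v))

end Pool.Agent.W2lead.Depth
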