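import Mathlib

/-!
# Averaging over blocks
-/

namespace Pool.Agent.W2lead

open Finset

lemma sum_update' {r : ℕ} {X : Type} [Fintype X] (i : Fin r) (F : (Fin r → X) → ℝ) :
    ∑ y : Fin r → X, ∑ x : X, F (Function.update y i x) = (Fintype.card X : ℝ) * ∑ y, F y := by
  classical
  have h1 : ∀ z : Fin r → X, ((univ.filter (fun p : (Fin r → X) × X =>
      Function.update p.1 i p.2 = z)).card : ℝ) = Fintype.card X := by
    intro z
    have : (univ.filter (fun p : (Fin r → X) × X => Function.update p.1 i p.2 = z)) =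
        univ.image (fun x : X => (Function.update z i x, z i)) := by
      ext ⟨y, x⟩
      rw [mem_filter, mem_image]
      constructor
      · rintro ⟨-, h⟩
        refine ⟨y i, mem_univ _, ?_⟩
        simp only at h
        subst h
        simp
      · rintro ⟨x', -, h⟩
        rw [Prod.mk.injEq] at h
        obtain ⟨h1, h2⟩ := h
        refine ⟨mem_univ _, ?_⟩
        simp only
        rw [← h1, ← h2]
        simp
    rw [this, card_image_of_injective, card_univ]
    intro x x' h
    simp only [Prod.mk.injEq, and_true] at h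
    have := congrFun h i
    simpa using this
  calc ∑ y : Fin r → X, ∑ x : X, F (Function.update y i x)
      = ∑ p : (Fin r → X) × X, F (Function.update p.1 i p.2) := by
        rw [Fintype.sum_prod_type]
    _ = ∑ z, ∑ p ∈ univ.filter (fun p : (Fin r → X) × X => Function.update p.1 i p.2 = z),
          F (Function.update p.1 i p.2) := by
        rw [Finset.sum_fiberwise]
    _ = ∑ z, (Fintype.card X : ℝ) * F z := by
        refine Finset.sum_congr rfl fun z _ => ?_
        rw [Finset.sum_congr rfl (g := fun _ => F z) (fun p hp => by rw [(mem_filter.mp hp).2]),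
          Finset.sum_const, nsmul_eq_mul, h1]
    _ = _ := by rw [Finset.mul_sum]

open Classical in
/-- If every accepted point is good for all but `t` of the `r` blocks, and a block with all the other
blocks fixed is good with probability at most `ε`, then the acceptance probability is small. -/
lemma block_avg {r t : ℕ} (hr : 0 < r) {R X : Type} [Fintype R] [Nonempty R] [Fintype X]
    [Nonempty X] {δ ε : ℝ} (Gd : Fin r → R → (Fin r → X) → Prop) (A : R → (Fin r → X) → Prop)
    (hA : ∀ ρ x, A ρ x → ∃ T : Finset (Fin r), T.card ≤ t ∧ ∀ i ∉ T, Gd i ρ x) (hδ0 : 0 ≤ δ)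
    (hδ : ∀ x, δ * Fintype.card R ≤ ((univ.filter (fun ρ => A ρ x)).card : ℝ))
    (hε : ∀ i ρ y, ((univ.filter (fun x' => Gd i ρ (Function.update y i x'))).card : ℝ) ≤
      ε * Fintype.card X) : δ * ((r : ℝ) - t) ≤ ε * r := by
  have hr0 : (0 : ℝ) < r := by exact_mod_cast hr
  have hR0 : (0 : ℝ) < Fintype.card R := by exact_mod_cast Fintype.card_pos
  have hX0 : (0 : ℝ) < Fintype.card X := by exact_mod_cast Fintype.card_pos
  obtain ⟨K, hK⟩ : ∃ K : ℝ, K = Fintype.card (Fin r → X) := ⟨_, rfl⟩
  have hK0 : 0 < K := by rw [hK]; exact_mod_cast Fintype.card_pos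
  have hε0 : 0 ≤ ε := by
    have h1 := hε ⟨0, hr⟩ (Classical.arbitrary R) (Classical.arbitrary _)
    have h2 : (0 : ℝ) ≤ ε * Fintype.card X := le_trans (Nat.cast_nonneg _) h1
    exact nonneg_of_mul_nonneg_left h2 hX0
  by_cases hrt : (r : ℝ) ≤ t
  · have h1 : δ * ((r : ℝ) - t) ≤ 0 := mul_nonpos_of_nonneg_of_nonpos hδ0 (by linarith)
    exact h1.trans (by positivity)
  push Not at hrt
  let g : Fin r → R → (Fin r → X) → ℝ := fun i ρ x => if Gd i ρ x then 1 else 0
  let a : R → (Fin r → X) → ℝ := fun ρ x => if A ρ x then 1 else 0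
  have h1 : ∀ ρ x, ((r : ℝ) - t) * a ρ x ≤ ∑ i, g i ρ x := by
    intro ρ x
    by_cases h : A ρ x
    · obtain ⟨T, hT, hG⟩ := hA ρ x h
      have e1 : ∑ i ∈ Tᶜ, g i ρ x ≤ ∑ i, g i ρ x := by
        apply Finset.sum_le_sum_of_subset_of_nonneg (Finset.subset_univ _)
        intro i _ _
        simp only [g]
        split_ifs <;> norm_num
      have e2 : ∀ i ∈ Tᶜ, g i ρ x = 1 := by
        intro i hi
        rw [Finset.mem_compl] at hi
        simp only [g, hG i hi, if_true]
      rw [Finset.sum_congr rfl e2, Finset.sum_const, nsmul_eq_mul, mul_one,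
        Finset.card_compl, Fintype.card_fin] at e1
      have e3 : T.card ≤ r := by
        have := Finset.card_le_univ T
        rwa [Fintype.card_fin] at this
      rw [Nat.cast_sub e3] at e1
      have e4 : (T.card : ℝ) ≤ t := by exact_mod_cast hT
      simp only [a, h, if_true]
      linarith
    · simp only [a, h, if_false, mul_zero]
      apply Finset.sum_nonneg
      intro i _
      simp only [g]
      split_ifs <;> norm_num
  have h2 : ∀ x, δ * Fintype.card R ≤ ∑ ρ, a ρ x := by
    intro x
    have h3 := hδ x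
    rw [Finset.card_filter, Nat.cast_sum] at h3
    refine h3.trans (le_of_eq (Finset.sum_congr rfl fun ρ _ => ?_))
    simp only [a]
    split_ifs <;> simp
  have h3 : ∀ i ρ, ∑ x, g i ρ x ≤ ε * K := by
    intro i ρ
    have e1 := sum_update' i (g i ρ)
    have e2 : ∑ y : Fin r → X, ∑ x : X, g i ρ (Function.update y i x) ≤
        ∑ _y : Fin r → X, ε * Fintype.card X := by
      apply Finset.sum_le_sum
      intro y _
      refine le_trans (le_of_eq ?_) (hε i ρ y)
      rw [Finset.card_filter, Nat.cast_sum]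
      refine Finset.sum_congr rfl fun x _ => ?_
      simp only [g]
      split_ifs <;> simp
    rw [e1, Finset.sum_const, Finset.card_univ, nsmul_eq_mul, ← hK] at e2
    have e3 : (Fintype.card X : ℝ) * ∑ y, g i ρ y ≤ Fintype.card X * (ε * K) := by
      calc _ ≤ _ := e2
        _ = _ := by ring
    exact le_of_mul_le_mul_left e3 hX0
  have h4 : ((r : ℝ) - t) * (δ * Fintype.card R) * K ≤ r * (Fintype.card R * (ε * K)) := by
    calc ((r : ℝ) - t) * (δ * Fintype.card R) * K
        = ∑ _x : Fin r → X, ((r : ℝ) - t) * (δ * Fintype.card R) := by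
          rw [Finset.sum_const, Finset.card_univ, nsmul_eq_mul, ← hK]; ring
      _ ≤ ∑ x : Fin r → X, ((r : ℝ) - t) * ∑ ρ, a ρ x :=
          Finset.sum_le_sum fun x _ => mul_le_mul_of_nonneg_left (h2 x) (by linarith)
      _ = ∑ x : Fin r → X, ∑ ρ, ((r : ℝ) - t) * a ρ x :=
          Finset.sum_congr rfl fun x _ => Finset.mul_sum _ _ _
      _ ≤ ∑ x : Fin r → X, ∑ ρ, ∑ i, g i ρ x :=
          Finset.sum_le_sum fun x _ => Finset.sum_le_sum fun ρ _ => h1 ρ x
      _ = ∑ i, ∑ ρ, ∑ x : Fin r → X, g i ρ x := by
          rw [Finset.sum_comm]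
          simp_rw [Finset.sum_comm (s := (univ : Finset (Fin r → X)))]
          rw [Finset.sum_comm]
      _ ≤ ∑ _i : Fin r, ∑ _ρ : R, ε * K :=
          Finset.sum_le_sum fun i _ => Finset.sum_le_sum fun ρ _ => h3 i ρ
      _ = r * (Fintype.card R * (ε * K)) := by
          rw [Finset.sum_const, Finset.sum_const, Finset.card_univ, Finset.card_univ,
            Fintype.card_fin, nsmul_eq_mul, nsmul_eq_mul]
  have h5 : (Fintype.card R * K) * (δ * ((r : ℝ) - t)) ≤ (Fintype.card R * K) * (ε * r) := by
    calc _ = ((r : ℝ) - t) * (δ * Fintype.card R) * K := by ring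
      _ ≤ _ := h4
      _ = _ := by ring
  exact le_of_mul_le_mul_left h5 (by positivity)

end Pool.Agent.W2lead
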