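import Pool.Agent.W2lead.DepthDefs
import Pool.Agent.H560R2.Peb2

/-!
# The rank bound for the pyramid problem, in average-case form
-/

namespace Pool.Agent.W2lead.Depth

open Finset Pool.Agent.H560R2

variable {h q : ℕ}

/-- yes-instances -/
def al (x : PV h → Fin q) : Var h q → Bool
  | .leaf j c => decide (x (0, j) = c)
  | .rule k j a b c => decide (x (k.castSucc, j.castSucc) = a ∧ x (k.castSucc, j.succ) = b ∧
      x (k.succ, j.castSucc) = c)
  | .goal c => decide (x (psink h) = c)

/-- no-instances -/
def be (y : PV h → Fin q → Bool) : Var h q → Bool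
  | .leaf j c => y (0, j) c
  | .rule k j a b c => !(y (k.castSucc, j.castSucc) a && y (k.castSucc, j.succ) b &&
      !(y (k.succ, j.castSucc) c))
  | .goal c => !(y (psink h) c)

lemma al_derives (x : PV h → Fin q) (k j : ℕ) (hkj : k + j ≤ h) :
    ∀ (v : PV h), v.1.val = k → v.2.val = j → Derives (al x) k j (x v) := by
  induction k generalizing j with
  | zero =>
    intro v h1 h2
    refine ⟨by omega, ?_⟩
    simp only [al, decide_eq_true_eq]
    congr 1
    exact Prod.ext (Fin.ext (by simpa using h1.symm)) (Fin.ext (by simpa using h2.symm))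
  | succ k ih =>
    intro v h1 h2
    have hk : k < h := by omega
    have hj : j < h := by omega
    have i1 := ih j (by omega) ((⟨k, by omega⟩ : Fin (h+1)), (⟨j, by omega⟩ : Fin (h+1))) rfl rfl
    have i2 := ih (j+1) (by omega) ((⟨k, by omega⟩ : Fin (h+1)), (⟨j+1, by omega⟩ : Fin (h+1))) rfl rfl
    refine ⟨hk, hj, _, _, ?_, i1, i2⟩
    simp only [al, decide_eq_true_eq]
    refine ⟨rfl, rfl, ?_⟩
    congr 1
    exact Prod.ext (Fin.ext (by simpa using h1.symm)) (Fin.ext (by simpa using h2.symm))

lemma al_top (x : PV h → Fin q) : Top (al x) := by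
  refine ⟨x (psink h), by simp [al], ?_⟩
  exact al_derives x h 0 (by omega) _ rfl rfl

lemma be_derives (y : PV h → Fin q → Bool) (k : ℕ) : ∀ (j : ℕ) (hk : k < h + 1) (hj : j < h + 1)
    (c : Fin q), Derives (be y) k j c → y (⟨k, hk⟩, ⟨j, hj⟩) c = true := by
  induction k with
  | zero =>
    rintro j hk hj c ⟨hj', h1⟩
    simpa [be] using h1
  | succ k ih =>
    rintro j hk hj c ⟨hk', hj', a, b, h1, h2, h3⟩
    have e2 := ih j (by omega) hj a h2
    have e3 := ih (j + 1) (by omega) (by omega) b h3
    simp only [be, Bool.not_eq_true', Bool.and_eq_false_imp, Bool.and_eq_true, Bool.not_eq_false']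
      at h1
    exact h1 ⟨e2, e3⟩

lemma be_top (y : PV h → Fin q → Bool) : ¬ Top (be y) := by
  rintro ⟨c, h1, h2⟩
  have := be_derives y h 0 (by omega) (by omega) c h2
  simp only [be, Bool.not_eq_true'] at h1
  have e : ((⟨h, by omega⟩, ⟨0, by omega⟩) : PV h) = psink h := rfl
  rw [e, h1] at this
  exact absurd this (by simp)

lemma base_rank (h q : ℕ) (b : (Var h q → Bool) → Bool) (hb : b ∈ pbase (Var h q)) :
    (mask (amat q (pconf h)) (fun x => b (al x)) (fun y => !(b (be y)))).rank ≤
      ((h + 1) ^ 2).choose h * q ^ ((h + 1) ^ 2 - (h + 1)) := by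
  classical
  have hn : Fintype.card (PV h) = (h + 1) ^ 2 := by
    rw [Fintype.card_prod, Fintype.card_fin, sq]
  have key : ∀ (v : PV h) (U : (PV h → Fin q) → Bool) (W : (PV h → Fin q → Bool) → Bool),
      (∀ x y, U x = true → W y = true → (∀ i ∈ ppred h v, y i (x i) = true) ∧
        y v (x v) = false) →
      (mask (amat q (pconf h)) U W).rank ≤
        ((h + 1) ^ 2).choose h * q ^ ((h + 1) ^ 2 - (h + 1)) := by
    intro v U W hUW
    have := mask_rank (q := q) (pconf h) h (ppred h v) v (ppred_notMem h v) (pconf_card h)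
      (fun S hS hP hv hlt => pconf_insert h v S hS hP hv hlt)
      (fun S hS _ _ => pconf_erase h v S hS) U W hUW
    rwa [hn] at this
  rcases hb with ⟨c, rfl⟩ | ⟨i, rfl⟩
  · have : mask (amat q (pconf h)) (fun _ => c) (fun _ => !c) = 0 := by
      ext x y
      simp only [mask, Matrix.of_apply, Matrix.zero_apply]
      rcases c with _ | _ <;> simp
    rw [this, Matrix.rank_zero]
    exact Nat.zero_le _
  · rcases i with ⟨j, c⟩ | ⟨k, j, a, b, c⟩ | c
    · apply key (0, j)
      intro x y hx hy
      simp only [al, decide_eq_true_eq] at hx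
      simp only [be, Bool.not_eq_true'] at hy
      refine ⟨fun i hi => ?_, by rw [hx]; exact hy⟩
      exfalso
      unfold ppred at hi
      rw [Finset.mem_filter] at hi
      have := hi.2.1
      simp at this
    · apply key (k.succ, j.castSucc)
      intro x y hx hy
      simp only [al, decide_eq_true_eq] at hx
      obtain ⟨hx1, hx2, hx3⟩ := hx
      simp only [be, Bool.not_not, Bool.and_eq_true, Bool.not_eq_true'] at hy
      refine ⟨fun i hi => ?_, by rw [hx3]; exact hy.2⟩
      unfold ppred at hi
      rw [Finset.mem_filter] at hi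
      obtain ⟨-, hi1, hi2⟩ := hi
      simp only [Fin.val_succ, Fin.val_castSucc] at hi1 hi2
      rcases hi2 with hi2 | hi2
      · have : i = (k.castSucc, j.castSucc) :=
          Prod.ext (Fin.ext (by simpa using hi1)) (Fin.ext (by simpa using hi2))
        rw [this, hx1]
        exact hy.1.1
      · have : i = (k.castSucc, j.succ) :=
          Prod.ext (Fin.ext (by simpa using hi1)) (Fin.ext (by simpa using hi2))
        rw [this, hx2]
        exact hy.1.2
    · have := mask_sink (q := q) (pconf h) (psink h) (pconf_sink h)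
        (fun x => al x (Var.goal c)) (fun y => !(be y (Var.goal c))) (by
          intro x y hx hy
          simp only [al, decide_eq_true_eq] at hx
          simp only [be, Bool.not_not] at hy
          rw [hx]
          exact hy)
      rw [this]
      exact Nat.zero_le _

lemma rank_rows {X Y : Type*} [Fintype X] [Fintype Y] [DecidableEq X] [DecidableEq Y]
    (A : Matrix X Y ℚ) (U : X → Bool) (hA : Fintype.card X ≤ A.rank) :
    (univ.filter (fun x => U x = true)).card ≤ (mask A U (fun _ => true)).rank := by
  have hsplit : A = mask A U (fun _ => true) + mask A (fun x => !(U x)) (fun _ => true) := by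
    ext x y
    simp only [mask, Matrix.of_apply, Matrix.add_apply]
    by_cases h1 : U x = true <;> simp [h1]
  have h1 := rank_add_le' (mask A U (fun _ => true)) (mask A (fun x => !(U x)) (fun _ => true))
  rw [← hsplit] at h1
  have h2 : mask A (fun x => !(U x)) (fun _ => true) =
      Matrix.diagonal (fun x => if U x = true then (0 : ℚ) else 1) * A := by
    ext x y
    rw [Matrix.diagonal_mul]
    simp only [mask, Matrix.of_apply]
    by_cases h1 : U x = true <;> simp [h1]
  have h3 : (mask A (fun x => !(U x)) (fun _ => true)).rank ≤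
      (univ.filter (fun x => ¬ U x = true)).card := by
    rw [h2]
    refine (Matrix.rank_mul_le_left _ _).trans ?_
    rw [Matrix.rank_diagonal]
    rw [Fintype.card_subtype]
    apply Finset.card_le_card
    intro x hx
    rw [Finset.mem_filter] at hx ⊢
    refine ⟨hx.1, fun hc => hx.2 (by simp [hc])⟩
  have h4 := Finset.card_filter_add_card_filter_not (s := (univ : Finset X)) (fun x => U x = true)
  rw [Finset.card_univ] at h4
  omega

/-- Monotone trees that reject all no-instances and accept many yes-instances are deep. -/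
theorem robust (h q : ℕ) (hq : q = 4 * (h + 1) ^ 2) {D : ℕ}
    {g : (Var h q → Bool) → Bool} (hg : MD (pbase (Var h q)) D g)
    (U : (PV h → Fin q) → Bool) (h1 : ∀ x, U x = true → g (al x) = true)
    (h2 : ∀ y, g (be y) = false) :
    (univ.filter (fun x => U x = true)).card * (4 ^ (h + 1) * (h + 1) ^ 2) ≤
      2 ^ D * Fintype.card (PV h → Fin q) := by
  classical
  have hn : Fintype.card (PV h) = (h + 1) ^ 2 := by
    rw [Fintype.card_prod, Fintype.card_fin, sq]
  have hcard : Fintype.card (PV h → Fin q) = q ^ ((h + 1) ^ 2) := by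
    rw [Fintype.card_fun, Fintype.card_fin, hn]
  set n := (h + 1) ^ 2 with hndef
  have hnh : h + 1 ≤ n := by rw [hndef, sq]; exact Nat.le_mul_self _
  have hD := rank_depth (amat q (pconf h)) al be _ (base_rank h q) hg U (fun _ => true) h1
    (fun y _ => h2 y)
  have hfull : Fintype.card (PV h → Fin q) ≤ (amat q (pconf h)).rank := by
    rw [hcard]
    have := amat_rank (q := q) (pconf h) (pconf_empty h)
    rwa [hn] at this
  have hrow := (rank_rows _ U hfull).trans hD
  rw [← hndef] at hrow
  rw [hcard]
  have hsplit : q ^ n = q ^ (n - (h + 1)) * q ^ (h + 1) := by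
    rw [← pow_add]; congr 1; omega
  have h4 : n.choose h ≤ n ^ h := Nat.choose_le_pow n h
  have h5 : q ^ (h + 1) = 4 ^ (h + 1) * n ^ (h + 1) := by rw [hq, mul_pow]
  calc (univ.filter (fun x => U x = true)).card * (4 ^ (h + 1) * n)
      ≤ (2 ^ D * (n.choose h * q ^ (n - (h + 1)))) * (4 ^ (h + 1) * n) :=
        Nat.mul_le_mul_right _ hrow
    _ ≤ (2 ^ D * (n ^ h * q ^ (n - (h + 1)))) * (4 ^ (h + 1) * n) := by gcongr
    _ = 2 ^ D * (q ^ (n - (h + 1)) * (4 ^ (h + 1) * n ^ (h + 1))) := by ring
    _ = 2 ^ D * q ^ n := by rw [hsplit, h5]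

end Pool.Agent.W2lead.Depth
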